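import Pool.Agent.H834R2.Cov

/-!
# A local degree argument: nondegenerate zeros of the same sign are unique
-/

set_option autoImplicit false

open MeasureTheory Metric Set Filter Topology
open scoped Topology ContDiff NNReal

namespace Pool.Agent.Run7.h491.AC

open Pool.Agent.H834R2.Vol

variable {E : Type*} [NormedAddCommGroup E] [NormedSpace ℝ E] [FiniteDimensional ℝ E]

/-- local inverse near a regular point, with constant sign of the determinant -/
theorem exists_local (Ξ : E → E) (hΞ : ContDiff ℝ 1 Ξ) (x : E)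
    (hreg : (fderiv ℝ Ξ x).det ≠ 0) (U : Set E) (hU : IsOpen U) (hxU : x ∈ U) :
    ∃ W : Set E, IsOpen W ∧ x ∈ W ∧ W ⊆ U ∧ InjOn Ξ W ∧
      (∀ z ∈ W, 0 < (fderiv ℝ Ξ z).det * (fderiv ℝ Ξ x).det) ∧
      (∀ O ⊆ W, IsOpen O → IsOpen (Ξ '' O)) := by
  have : CompleteSpace E := FiniteDimensional.complete ℝ E
  let f' : E ≃L[ℝ] E := ContinuousLinearEquiv.ofBijective (fderiv ℝ Ξ x)
    (by
      rw [LinearMap.ker_eq_bot]
      exact (LinearMap.equivOfDetNeZero _ hreg).injective)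
    (by
      rw [LinearMap.range_eq_top]
      exact (LinearMap.equivOfDetNeZero _ hreg).surjective)
  have hf' : (f' : E →L[ℝ] E) = fderiv ℝ Ξ x := by
    ext v; rfl
  have hst : HasStrictFDerivAt Ξ (f' : E →L[ℝ] E) x := by
    rw [hf']
    exact hΞ.contDiffAt.hasStrictFDerivAt (by norm_num)
  let e := hst.toOpenPartialHomeomorph Ξ
  have hex : x ∈ e.source := hst.mem_toOpenPartialHomeomorph_source
  have hc1 : Continuous (fun x => (fderiv ℝ Ξ x).det) :=
    ContinuousLinearMap.continuous_det.comp (hΞ.continuous_fderiv (by norm_num))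
  have hec : ∀ z, e z = Ξ z := fun z => rfl
  refine ⟨e.source ∩ (U ∩ {z | 0 < (fderiv ℝ Ξ z).det * (fderiv ℝ Ξ x).det}), ?_, ?_, ?_, ?_, ?_, ?_⟩
  · exact e.open_source.inter (hU.inter (isOpen_lt continuous_const (hc1.mul continuous_const)))
  · refine ⟨hex, hxU, ?_⟩
    exact mul_self_pos.2 hreg
  · exact fun z hz => hz.2.1
  · intro a ha b hb hab
    exact e.injOn ha.1 hb.1 hab
  · exact fun z hz => hz.2.2
  · intro O hO hOo
    exact e.isOpen_image_of_subset_source hOo (fun z hz => (hO hz).1)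

/-- A `C¹` map which is the identity outside a ball, all of whose preimages of `y` are
nondegenerate with the same sign of the determinant, takes the value `y` exactly once. -/
theorem unique_of_id_outside [Nontrivial E] (Ξ : E → E) (hΞ : ContDiff ℝ 1 Ξ) (R0 : ℝ)
    (hR0 : 0 ≤ R0) (hid : ∀ x, R0 ≤ ‖x‖ → Ξ x = x) (y : E)
    (hsame : ∀ x x', Ξ x = y → Ξ x' = y →
      0 < (fderiv ℝ Ξ x).det * (fderiv ℝ Ξ x').det) : ∃! x, Ξ x = y := by
  have hreg : ∀ x, Ξ x = y → (fderiv ℝ Ξ x).det ≠ 0 := fun x hx h0 => by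
    have := hsame x x hx hx
    rw [h0] at this
    simp at this
  classical
  let _ : MeasurableSpace E := borel E
  have _ : BorelSpace E := ⟨rfl⟩
  let μ : Measure E := MeasureTheory.Measure.addHaar
  have hΞc := hΞ.continuous
  set S : Set E := Ξ ⁻¹' {y} with hS
  have hSb : ∀ x ∈ S, ‖x‖ ≤ max R0 ‖y‖ := by
    intro x hx
    by_contra hcon
    push Not at hcon
    have h1 : R0 ≤ ‖x‖ := (le_max_left _ _).trans hcon.le
    have h2 : x = y := by rw [← hid x h1]; exact hx
    rw [h2] at hcon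
    exact absurd (le_max_right R0 ‖y‖) (not_le.2 hcon)
  have hScomp : IsCompact S := by
    apply (isCompact_closedBall (0 : E) (max R0 ‖y‖)).of_isClosed_subset
      (isClosed_singleton.preimage hΞc)
    intro x hx
    simpa using hSb x hx
  have hSfin : S.Finite := by
    have h1 : ∀ x ∈ S, ∃ W ∈ 𝓝 x, ∀ z ∈ W, z ∈ S → z = x := by
      intro x hx
      obtain ⟨W, hWo, hxW, -, hinj, -, -⟩ := exists_local Ξ hΞ x (hreg x hx) univ isOpen_univ trivial
      refine ⟨W, hWo.mem_nhds hxW, fun z hz hzS => hinj hz hxW ?_⟩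
      rw [show Ξ z = y from hzS, show Ξ x = y from hx]
    choose! W hW hW2 using h1
    obtain ⟨t, ht, hcov⟩ := hScomp.elim_nhds_subcover W hW
    apply t.finite_toSet.subset
    intro z hz
    obtain ⟨x, hxt, hzx⟩ := mem_iUnion₂.1 (hcov hz)
    rw [hW2 x (ht x hxt) z hzx hz]
    exact hxt
  obtain ⟨U, hU, hUd⟩ := hSfin.t2_separation
  have hloc : ∀ x ∈ S, ∃ W : Set E, IsOpen W ∧ x ∈ W ∧ W ⊆ U x ∧ InjOn Ξ W ∧
      (∀ z ∈ W, 0 < (fderiv ℝ Ξ z).det * (fderiv ℝ Ξ x).det) ∧
      (∀ O ⊆ W, IsOpen O → IsOpen (Ξ '' O)) := fun x hx =>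
    exists_local Ξ hΞ x (hreg x hx) (U x) (hU x).2 (hU x).1
  choose! W hWo hxW hWU hWinj hWdet hWopen using hloc
  -- the compact part away from the preimages
  let R' : ℝ := max R0 ‖y‖ + 1
  have hK : IsCompact (closedBall (0 : E) R' \ ⋃ x ∈ S, W x) := by
    apply (isCompact_closedBall (0 : E) R').diff
    exact isOpen_biUnion fun x hx => hWo x hx
  have hKy : y ∉ Ξ '' (closedBall (0 : E) R' \ ⋃ x ∈ S, W x) := by
    rintro ⟨z, hz, hzy⟩
    exact hz.2 (mem_iUnion₂.2 ⟨z, hzy, hxW z hzy⟩)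
  have hn1 : (Ξ '' (closedBall (0 : E) R' \ ⋃ x ∈ S, W x))ᶜ ∈ 𝓝 y :=
    (hK.image hΞc).isClosed.isOpen_compl.mem_nhds hKy
  have hn2 : (⋂ x ∈ S, Ξ '' W x) ∈ 𝓝 y := by
    rw [biInter_mem hSfin]
    intro x hx
    apply (hWopen x hx (W x) subset_rfl (hWo x hx)).mem_nhds
    exact ⟨x, hxW x hx, hx⟩
  obtain ⟨ε, hε, hball⟩ := Metric.mem_nhds_iff.1
    (inter_mem (inter_mem hn1 hn2) (Metric.ball_mem_nhds y one_pos))
  have hpre : ∀ z, Ξ z ∈ ball y ε → z ∈ ⋃ x ∈ S, W x := by
    intro z hz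
    by_contra hcon
    have h1 := hball hz
    have h2 : ‖z‖ ≤ R' := by
      by_contra h3
      push Not at h3
      have h4 : R0 ≤ ‖z‖ := by
        have := le_max_left R0 ‖y‖
        simp only [R'] at h3
        linarith
      rw [hid z h4] at h1
      have h5 := h1.2
      rw [mem_ball, dist_eq_norm] at h5
      have h6 : ‖z‖ - ‖y‖ ≤ ‖z - y‖ := norm_sub_norm_le _ _
      have := le_max_right R0 ‖y‖
      simp only [R'] at h3
      linarith
    exact h1.1.1 ⟨z, ⟨by simpa using h2, hcon⟩, rfl⟩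
  -- the test function
  let φb : ContDiffBump y := ⟨ε / 2, ε, by linarith, by linarith⟩
  let φ : E → ℝ := fun z => φb z
  have hφ : ContDiff ℝ 1 φ := φb.contDiff
  have hφ0 : ∀ z, z ∉ ball y ε → φ z = 0 := by
    intro z hz
    by_contra hne
    have : z ∈ Function.support φb := hne
    rw [φb.support_eq] at this
    exact hz this
  have hφpos : 0 < ∫ z, φ z ∂μ := φb.integral_pos
  obtain ⟨R1, hR1⟩ := integral_comp μ Ξ hΞ R0 hR0 hid φ hφ (‖y‖ + ε) (by positivity) (by
    intro z hz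
    apply hφ0
    rw [mem_ball, dist_eq_norm]
    have h6 : ‖z‖ - ‖y‖ ≤ ‖z - y‖ := norm_sub_norm_le _ _
    linarith)
  let R : ℝ := max R1 (max R0 (‖y‖ + ε))
  have hint := hR1 R (le_max_left _ _)
  -- pieces
  let W' : E → Set E := fun x => W x ∩ Ξ ⁻¹' (ball y ε)
  have hW'o : ∀ x ∈ S, IsOpen (W' x) := fun x hx => (hWo x hx).inter (isOpen_ball.preimage hΞc)
  have hW'B : ∀ x ∈ S, W' x ⊆ closedBall (0 : E) R := by
    intro x hx z hz
    rw [mem_closedBall, dist_zero_right]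
    by_cases h : ‖z‖ ≤ R0
    · exact h.trans ((le_max_left _ _).trans (le_max_right _ _))
    · push Not at h
      have h1 : Ξ z ∈ ball y ε := hz.2
      rw [hid z h.le, mem_ball, dist_eq_norm] at h1
      have h6 : ‖z‖ - ‖y‖ ≤ ‖z - y‖ := norm_sub_norm_le _ _
      have : ‖z‖ ≤ ‖y‖ + ε := by linarith
      exact this.trans ((le_max_right _ _).trans (le_max_right _ _))
  have hW'img : ∀ x ∈ S, Ξ '' (W' x) = ball y ε := by
    intro x hx
    apply Subset.antisymm
    · rintro _ ⟨z, hz, rfl⟩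
      exact hz.2
    · intro w hw
      have h1 := (hball hw).1.2
      obtain ⟨z, hz, hzw⟩ := (mem_iInter₂.1 h1) x hx
      exact ⟨z, ⟨hz, by rw [mem_preimage, hzw]; exact hw⟩, hzw⟩
  have hc1 : Continuous (fun x => (fderiv ℝ Ξ x).det) :=
    ContinuousLinearMap.continuous_det.comp (hΞ.continuous_fderiv (by norm_num))
  have hc2 : Continuous (fun x => φ (Ξ x) * (fderiv ℝ Ξ x).det) :=
    (hφ.continuous.comp hΞc).mul hc1
  let s : E → ℤ := fun x => if 0 < (fderiv ℝ Ξ x).det then 1 else -1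
  have hpiece : ∀ x ∈ S, ∫ z in W' x, φ (Ξ z) * (fderiv ℝ Ξ z).det ∂μ = (s x : ℝ) * ∫ z, φ z ∂μ := by
    intro x hx
    have hcv := integral_image_eq_integral_abs_det_fderiv_smul μ (hW'o x hx).measurableSet
      (f := Ξ) (f' := fderiv ℝ Ξ)
      (fun z _ => ((hΞ.differentiable (by norm_num)).differentiableAt.hasFDerivAt).hasFDerivWithinAt)
      ((hWinj x hx).mono inter_subset_left) φ
    rw [hW'img x hx] at hcv
    have h1 : ∫ z in ball y ε, φ z ∂μ = ∫ z, φ z ∂μ := by
      apply setIntegral_eq_integral_of_forall_compl_eq_zero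
      intro z hz
      exact hφ0 z hz
    rw [← h1, hcv, ← integral_const_mul]
    apply setIntegral_congr_fun (hW'o x hx).measurableSet
    intro z hz
    have h2 := hWdet x hx z hz.1
    by_cases hpos : 0 < (fderiv ℝ Ξ x).det
    · have h3 : 0 < (fderiv ℝ Ξ z).det := pos_of_mul_pos_left h2 hpos.le
      simp only [s, hpos, if_true, abs_of_pos h3, smul_eq_mul]
      push_cast
      ring
    · have hneg : (fderiv ℝ Ξ x).det < 0 := lt_of_le_of_ne (not_lt.1 hpos) (hreg x hx)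
      have h3 : (fderiv ℝ Ξ z).det < 0 := by
        by_contra h4
        push Not at h4
        have := mul_nonpos_of_nonneg_of_nonpos h4 hneg.le
        linarith
      simp only [s, hpos, if_false, abs_of_neg h3, smul_eq_mul]
      push_cast
      ring
  have hdisj : (hSfin.toFinset : Set E).PairwiseDisjoint W' := by
    intro a ha b hb hab
    have ha' : a ∈ S := by simpa using ha
    have hb' : b ∈ S := by simpa using hb
    have := hUd ha' hb' hab
    exact this.mono (inter_subset_left.trans (hWU a ha')) (inter_subset_left.trans (hWU b hb'))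
  have hsum : ∫ z in ⋃ x ∈ hSfin.toFinset, W' x, φ (Ξ z) * (fderiv ℝ Ξ z).det ∂μ =
      ∑ x ∈ hSfin.toFinset, ∫ z in W' x, φ (Ξ z) * (fderiv ℝ Ξ z).det ∂μ := by
    apply integral_biUnion_finset
    · intro x hx
      exact (hW'o x (by simpa using hx)).measurableSet
    · exact hdisj
    · intro x hx
      exact (hc2.continuousOn.integrableOn_compact (isCompact_closedBall (0 : E) R)).mono_set
        (hW'B x (by simpa using hx))
  have htot : ∫ z in closedBall (0 : E) R, φ (Ξ z) * (fderiv ℝ Ξ z).det ∂μ =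
      ∫ z in ⋃ x ∈ hSfin.toFinset, W' x, φ (Ξ z) * (fderiv ℝ Ξ z).det ∂μ := by
    apply setIntegral_eq_of_subset_of_forall_sdiff_eq_zero isClosed_closedBall.measurableSet
    · intro z hz
      obtain ⟨x, hx, hzx⟩ := mem_iUnion₂.1 hz
      exact hW'B x (by simpa using hx) hzx
    · intro z hz
      have h1 : Ξ z ∉ ball y ε := by
        intro h2
        obtain ⟨x, hx, hzx⟩ := mem_iUnion₂.1 (hpre z h2)
        exact hz.2 (mem_iUnion₂.2 ⟨x, by simpa using hx, hzx, h2⟩)
      rw [hφ0 _ h1, zero_mul]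
  rw [htot, hsum, Finset.sum_congr rfl (fun x hx => hpiece x (by simpa using hx)),
    ← Finset.sum_mul] at hint
  have hs1 : (∑ x ∈ hSfin.toFinset, (s x : ℝ)) = 1 := by
    have := mul_right_cancel₀ hφpos.ne' (hint.trans (one_mul _).symm)
    exact this
  have hs2 : ∑ x ∈ hSfin.toFinset, s x = 1 := by exact_mod_cast hs1
  have hne : hSfin.toFinset.Nonempty := by
    by_contra h0
    rw [Finset.not_nonempty_iff_eq_empty] at h0
    rw [h0] at hs2
    simp at hs2
  obtain ⟨x0, hx0⟩ := hne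
  have hx0' : Ξ x0 = y := hSfin.mem_toFinset.1 hx0
  have hconst : ∀ x ∈ hSfin.toFinset, s x = s x0 := by
    intro x hx
    have hx' : Ξ x = y := hSfin.mem_toFinset.1 hx
    have h1 := hsame x x0 hx' hx0'
    simp only [s]
    by_cases hpos : 0 < (fderiv ℝ Ξ x0).det
    · have h2 : 0 < (fderiv ℝ Ξ x).det := pos_of_mul_pos_left h1 hpos.le
      simp only [hpos, h2]
    · have h2 : ¬ 0 < (fderiv ℝ Ξ x).det := by
        intro h3
        exact hpos (pos_of_mul_pos_right h1 h3.le)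
      simp only [hpos, h2]
  rw [Finset.sum_congr rfl hconst, Finset.sum_const, nsmul_eq_mul] at hs2
  have hcard : hSfin.toFinset.card = 1 := by
    have h1 : (hSfin.toFinset.card : ℤ) ∣ 1 := ⟨_, hs2.symm⟩
    have h2 := Int.eq_one_of_dvd_one (by positivity) h1
    exact_mod_cast h2
  obtain ⟨z, hz⟩ := Finset.card_eq_one.1 hcard
  refine ⟨x0, hx0', fun x hx => ?_⟩
  have h1 : x ∈ hSfin.toFinset := hSfin.mem_toFinset.2 hx
  have h2 := hx0
  rw [hz, Finset.mem_singleton] at h1 h2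
  rw [h1, h2]


/-- Local version: a `C¹` map on a ball which is close to an invertible linear map, all of whose
zeros are nondegenerate with the same sign, has exactly one zero. -/
theorem unique_zero (Ψ : E → E) (T : E →L[ℝ] E) (ρ κ δ η : ℝ) (hρ : 0 < ρ) (hκ : 0 ≤ κ)
    (hη : κ * η ≤ 1 / 4) (hδ : κ * δ < ρ / 8) (h1 : ContDiffOn ℝ 1 Ψ (ball 0 ρ))
    (h2 : ∀ z, ‖z‖ ≤ κ * ‖T z‖)
    (h3 : ∀ z ∈ ball (0 : E) ρ, ‖Ψ z - T z‖ ≤ δ + η * ‖z‖)
    (h4 : ∀ z ∈ ball (0 : E) ρ, ∀ z' ∈ ball (0 : E) ρ, Ψ z = 0 → Ψ z' = 0 →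
      0 < (fderiv ℝ Ψ z).det * (fderiv ℝ Ψ z').det) :
    ∃! z, z ∈ ball (0 : E) ρ ∧ Ψ z = 0 := by
  rcases subsingleton_or_nontrivial E with hE | hE
  · exact ⟨0, ⟨mem_ball_self hρ, Subsingleton.elim _ _⟩, fun _ _ => Subsingleton.elim _ _⟩
  have hTinj : Function.Injective T := by
    intro a b hab
    have := h2 (a - b)
    rw [map_sub, hab, sub_self, norm_zero, mul_zero] at this
    exact sub_eq_zero.1 (norm_le_zero_iff.1 this)
  let Te : E ≃L[ℝ] E := (LinearEquiv.ofInjectiveEndo (T : E →ₗ[ℝ] E) hTinj).toContinuousLinearEquiv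
  have hTe : ∀ z, Te z = T z := fun z => rfl
  have hTs : ∀ z, ‖Te.symm z‖ ≤ κ * ‖z‖ := fun z => by
    have := h2 (Te.symm z)
    rwa [← hTe, Te.apply_symm_apply] at this
  let χ : ContDiffBump (0 : E) := ⟨ρ / 2, 3 * ρ / 4, by positivity, by linarith⟩
  let G : E → E := fun z => z + χ z • (Te.symm (Ψ z) - z)
  have hGid : ∀ z, 3 * ρ / 4 ≤ ‖z‖ → G z = z := by
    intro z hz
    have h0 : χ z = 0 := by
      apply χ.zero_of_le_dist
      rw [dist_zero_right]
      exact hz
    simp [G, h0]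
  have hG1 : ContDiff ℝ 1 G := by
    rw [contDiff_iff_contDiffAt]
    intro z
    by_cases hz : ‖z‖ < ρ
    · have hzb : z ∈ ball (0 : E) ρ := by simpa using hz
      have hΨ : ContDiffAt ℝ 1 Ψ z := h1.contDiffAt (isOpen_ball.mem_nhds hzb)
      exact contDiffAt_id.add (χ.contDiff.contDiffAt.smul
        ((Te.symm.contDiff.contDiffAt.comp z hΨ).sub contDiffAt_id))
    · push Not at hz
      have hev : G =ᶠ[𝓝 z] id := by
        have : {w : E | 3 * ρ / 4 < ‖w‖} ∈ 𝓝 z :=
          (isOpen_lt continuous_const continuous_norm).mem_nhds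
            (by show 3 * ρ / 4 < ‖z‖; linarith)
        filter_upwards [this] with w hw
        exact hGid w (le_of_lt hw)
      exact contDiffAt_id.congr_of_eventuallyEq hev
  have hclose : ∀ z ∈ ball (0 : E) ρ, ‖Te.symm (Ψ z) - z‖ ≤ ρ / 8 + ‖z‖ / 4 := by
    intro z hz
    have e1 : Te.symm (Ψ z) - z = Te.symm (Ψ z - T z) := by
      rw [map_sub, ← hTe z, Te.symm_apply_apply]
    rw [e1]
    refine (hTs _).trans ?_
    have h5 := mul_le_mul_of_nonneg_left (h3 z hz) hκ
    have h6 : κ * η * ‖z‖ ≤ 1 / 4 * ‖z‖ := mul_le_mul_of_nonneg_right hη (norm_nonneg _)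
    nlinarith
  have hzero1 : ∀ z ∈ ball (0 : E) ρ, Ψ z = 0 → ‖z‖ < ρ / 2 := by
    intro z hz h0
    have h5 := hclose z hz
    rw [h0, map_zero, zero_sub, norm_neg] at h5
    linarith
  have hzero2 : ∀ z, G z = 0 → ‖z‖ < ρ / 2 := by
    intro z h0
    by_contra hcon
    push Not at hcon
    by_cases hz : ‖z‖ < ρ
    · have hzb : z ∈ ball (0 : E) ρ := by simpa using hz
      have h5 := hclose z hzb
      have h6 : z = - (χ z • (Te.symm (Ψ z) - z)) := eq_neg_of_add_eq_zero_left h0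
      have h7 : ‖z‖ ≤ ‖Te.symm (Ψ z) - z‖ := by
        calc ‖z‖ = ‖- (χ z • (Te.symm (Ψ z) - z))‖ := by rw [← h6]
          _ = χ z * ‖Te.symm (Ψ z) - z‖ := by
              rw [norm_neg, norm_smul, Real.norm_eq_abs, abs_of_nonneg χ.nonneg]
          _ ≤ 1 * ‖Te.symm (Ψ z) - z‖ := mul_le_mul_of_nonneg_right χ.le_one (norm_nonneg _)
          _ = _ := one_mul _
      linarith
    · push Not at hz
      have h5 := hGid z (by linarith)
      rw [h0] at h5
      rw [← h5, norm_zero] at hz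
      linarith
  have hev : ∀ z, ‖z‖ < ρ / 2 → G =ᶠ[𝓝 z] fun w => Te.symm (Ψ w) := by
    intro z hz
    have : ball (0 : E) (ρ / 2) ∈ 𝓝 z := isOpen_ball.mem_nhds (by simpa using hz)
    filter_upwards [this] with w hw
    have h5 : χ w = 1 := χ.one_of_mem_closedBall (ball_subset_closedBall hw)
    simp [G, h5]
  have hGz : ∀ z, G z = 0 → z ∈ ball (0 : E) ρ ∧ Ψ z = 0 := by
    intro z h0
    have h5 := hzero2 z h0
    refine ⟨by rw [mem_ball, dist_zero_right]; linarith, ?_⟩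
    have h6 := (hev z h5).eq_of_nhds
    rw [h0] at h6
    have h7 := congrArg Te h6
    rw [map_zero, Te.apply_symm_apply] at h7
    exact h7.symm
  have hdet : ∀ z, G z = 0 → (fderiv ℝ G z).det =
      (Te.symm : E →L[ℝ] E).det * (fderiv ℝ Ψ z).det := by
    intro z h0
    have h5 := hzero2 z h0
    obtain ⟨h6, h7⟩ := hGz z h0
    rw [(hev z h5).fderiv_eq]
    have hΨ : DifferentiableAt ℝ Ψ z :=
      (h1.contDiffAt (isOpen_ball.mem_nhds h6)).differentiableAt (by norm_num)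
    have h8 : fderiv ℝ (fun w => Te.symm (Ψ w)) z = (Te.symm : E →L[ℝ] E).comp (fderiv ℝ Ψ z) :=
      ((Te.symm : E →L[ℝ] E).hasFDerivAt.comp z hΨ.hasFDerivAt).fderiv
    rw [h8]
    simp only [ContinuousLinearMap.det]
    exact LinearMap.det_comp _ _
  have hTdet : (Te.symm : E →L[ℝ] E).det ≠ 0 := by
    have h5 : (Te.symm : E →L[ℝ] E).det * (Te : E →L[ℝ] E).det = 1 := by
      simp only [ContinuousLinearMap.det]
      rw [← LinearMap.det_comp]
      have : ((Te.symm : E →L[ℝ] E) : E →ₗ[ℝ] E) ∘ₗ ((Te : E →L[ℝ] E) : E →ₗ[ℝ] E) =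
          LinearMap.id := by
        ext v; simp
      rw [this, LinearMap.det_id]
    intro h6
    rw [h6, zero_mul] at h5
    exact zero_ne_one h5
  obtain ⟨z, hz, huni⟩ := unique_of_id_outside G hG1 (3 * ρ / 4) (by positivity) hGid 0 (by
    intro x x' hx hx'
    rw [hdet x hx, hdet x' hx']
    obtain ⟨a1, a2⟩ := hGz x hx
    obtain ⟨b1, b2⟩ := hGz x' hx'
    have h5 := h4 x a1 x' b1 a2 b2
    have h6 : 0 < (Te.symm : E →L[ℝ] E).det * (Te.symm : E →L[ℝ] E).det := mul_self_pos.2 hTdet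
    have h7 := mul_pos h6 h5
    linarith)
  refine ⟨z, hGz z hz, fun w hw => huni w ?_⟩
  have h5 := hzero1 w hw.1 hw.2
  show G w = 0
  rw [(hev w h5).eq_of_nhds, hw.2, map_zero]

end Pool.Agent.Run7.h491.AC
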