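import Mathlib

/-!
# Signs of determinants of cyclic operators
-/

set_option autoImplicit false

open Filter Topology Set

namespace Pool.Agent.Run7.h491.AC

variable {F : Type*} [NormedAddCommGroup F] [NormedSpace ℝ F] {m : ℕ}

/-- the cyclic operator `v ↦ (K i (v (i+1)) - B i (v i))ᵢ` -/
noncomputable def cy (K B : ZMod m → F →L[ℝ] F) : (ZMod m → F) →L[ℝ] (ZMod m → F) :=
  ContinuousLinearMap.pi fun i =>
    (K i).comp (ContinuousLinearMap.proj (R := ℝ) (φ := fun _ : ZMod m => F) (i + 1)) -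
      (B i).comp (ContinuousLinearMap.proj (R := ℝ) (φ := fun _ : ZMod m => F) i)

@[simp] theorem cy_apply (K B : ZMod m → F →L[ℝ] F) (v : ZMod m → F) (i : ZMod m) :
    cy K B v i = K i (v (i + 1)) - B i (v i) := rfl

variable [NeZero m] [FiniteDimensional ℝ F]

theorem det_ne_zero_of_inj {W : Type*} [NormedAddCommGroup W] [NormedSpace ℝ W]
    [FiniteDimensional ℝ W] (T : W →L[ℝ] W) (h : ∀ v, T v = 0 → v = 0) : T.det ≠ 0 := by
  have h1 : (T : W →ₗ[ℝ] W).ker = ⊥ := by
    rw [LinearMap.ker_eq_bot']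
    exact h
  have h2 : IsUnit (T : W →ₗ[ℝ] W) := LinearMap.isUnit_iff_ker_eq_bot _ |>.2 h1
  have h3 : IsUnit (LinearMap.det (T : W →ₗ[ℝ] W)) := h2.map LinearMap.det
  exact h3.ne_zero

theorem det_path {K B : ZMod m → ℝ → F →L[ℝ] F}
    (hK : ∀ i, ContinuousOn (K i) (Icc 0 1)) (hB : ∀ i, ContinuousOn (B i) (Icc 0 1))
    (hinj : ∀ s ∈ Icc (0 : ℝ) 1, ∀ v, cy (fun i => K i s) (fun i => B i s) v = 0 → v = 0) :
    0 < (cy (fun i => K i 0) (fun i => B i 0)).det * (cy (fun i => K i 1) (fun i => B i 1)).det := by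
  set φ : ℝ → ℝ := fun s => (cy (fun i => K i s) (fun i => B i s)).det with hφ
  have hc : ContinuousOn (fun s => cy (fun i => K i s) (fun i => B i s)) (Icc 0 1) := by
    rw [continuousOn_clm_apply]
    intro v
    rw [continuousOn_pi]
    intro i
    exact ((hK i).clm_apply continuousOn_const).sub ((hB i).clm_apply continuousOn_const)
  have hφc : ContinuousOn φ (Icc 0 1) :=
    ContinuousLinearMap.continuous_det.comp_continuousOn hc
  have hne : ∀ s ∈ Icc (0 : ℝ) 1, φ s ≠ 0 := fun s hs => det_ne_zero_of_inj _ (hinj s hs)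
  by_contra hcon
  rw [not_lt] at hcon
  have h1 : (0 : ℝ) ∈ uIcc (φ 0) (φ 1) := by
    rcases le_total (φ 0) (φ 1) with h | h
    · rw [uIcc_of_le h]
      constructor
      · by_contra h2
        push Not at h2
        exact absurd hcon (not_le.2 (mul_pos h2 (h2.trans_le h)))
      · by_contra h2
        push Not at h2
        exact absurd hcon (not_le.2 (mul_pos_of_neg_of_neg (h.trans_lt h2) h2))
    · rw [uIcc_of_ge h]
      constructor
      · by_contra h2
        push Not at h2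
        exact absurd hcon (not_le.2 (mul_pos (h2.trans_le h) h2))
      · by_contra h2
        push Not at h2
        exact absurd hcon (not_le.2 (mul_pos_of_neg_of_neg h2 (h.trans_lt h2)))
  have h2 := intermediate_value_uIcc (f := φ) (a := 0) (b := 1)
    (by rw [uIcc_of_le zero_le_one]; exact hφc) h1
  rw [uIcc_of_le zero_le_one] at h2
  obtain ⟨s, hs, hs0⟩ := h2
  exact hne s hs hs0

/-- the first part of the homotopy: along a path -/
theorem det_split {P B : ZMod m → ℝ → F →L[ℝ] F}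
    (hP : ∀ i, ContinuousOn (P i) (Icc 0 1)) (hB : ∀ i, ContinuousOn (B i) (Icc 0 1))
    (hPP : ∀ i, ∀ s ∈ Icc (0 : ℝ) 1, ∀ v, P i s (P i s v) = P i s v)
    (hPB : ∀ i, ∀ s ∈ Icc (0 : ℝ) 1, ∀ v, P (i + 1) s (B i s v) = B i s v)
    (hBP : ∀ i, ∀ s ∈ Icc (0 : ℝ) 1, ∀ v, B i s (P i s v) = B i s v)
    (hinj : ∀ i, ∀ s ∈ Icc (0 : ℝ) 1, ∀ v, P i s v = v → B i s v = 0 → v = 0) :
    0 < (cy (fun i => ContinuousLinearMap.id ℝ F - P (i + 1) 0) (fun i => B i 0)).det *
      (cy (fun i => ContinuousLinearMap.id ℝ F - P (i + 1) 1) (fun i => B i 1)).det := by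
  refine det_path (K := fun i s => ContinuousLinearMap.id ℝ F - P (i + 1) s)
    (fun i => continuousOn_const.sub (hP (i + 1))) hB ?_
  intro s hs v hv
  have h1 : ∀ i, B i s (v i) = 0 := by
    intro i
    have h2 := congrFun hv i
    simp only [cy_apply, sub_apply, ContinuousLinearMap.id_apply, Pi.zero_apply] at h2
    have h3 := congrArg (P (i + 1) s) h2
    rw [map_zero, map_sub, map_sub, hPP _ s hs, sub_self, zero_sub, neg_eq_zero,
      hPB _ s hs] at h3
    exact h3
  have h4 : ∀ i, P i s (v i) = 0 := by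
    intro i
    apply hinj i s hs _ (hPP i s hs _)
    rw [hBP i s hs, h1]
  have h5 : ∀ i, v (i + 1) = 0 := by
    intro i
    have h2 := congrFun hv i
    simp only [cy_apply, sub_apply, ContinuousLinearMap.id_apply, Pi.zero_apply] at h2
    rw [h1, sub_zero, h4, sub_zero] at h2
    exact h2
  funext i
  have := h5 (i - 1)
  rwa [sub_add_cancel] at this

/-- the second part of the homotopy: at a periodic orbit -/
theorem det_end {P D : ZMod m → F →L[ℝ] F}
    (hPP : ∀ i v, P i (P i v) = P i v)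
    (hPD : ∀ i v, P (i + 1) (D i v) = D i (P i v))
    (hS : ∀ t ∈ Icc (0 : ℝ) 1, ∀ w : ZMod m → F, (∀ i, P i (w i) = 0) →
      (∀ i, w (i + 1) = t • D i (w i)) → w = 0)
    (hU : ∀ t ∈ Icc (0 : ℝ) 1, ∀ w : ZMod m → F, (∀ i, P i (w i) = w i) →
      (∀ i, t • w (i + 1) = D i (w i)) → w = 0) :
    0 < (cy (fun i => ContinuousLinearMap.id ℝ F - P (i + 1)) (fun i => (D i).comp (P i))).det *
      (cy (fun _ => ContinuousLinearMap.id ℝ F) D).det := by
  have key := det_path (m := m)
    (K := fun i t => (ContinuousLinearMap.id ℝ F - P (i + 1)) + t • P (i + 1))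
    (B := fun i t => t • (D i).comp (ContinuousLinearMap.id ℝ F - P i) + (D i).comp (P i))
    (fun i => (continuousOn_const).add (continuousOn_id.smul continuousOn_const))
    (fun i => (continuousOn_id.smul continuousOn_const).add continuousOn_const) (by
      intro t ht v hv
      have h1 : ∀ i, (v (i + 1) - P (i + 1) (v (i + 1)) + t • P (i + 1) (v (i + 1))) -
          (t • (D i (v i) - D i (P i (v i))) + D i (P i (v i))) = 0 := by
        intro i
        have h2 := congrFun hv i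
        simp only [cy_apply, sub_apply, ContinuousLinearMap.id_apply, Pi.zero_apply,
          add_apply, smul_apply, ContinuousLinearMap.comp_apply, map_sub] at h2
        exact h2
      have hu : ∀ i, t • P (i + 1) (v (i + 1)) = D i (P i (v i)) := by
        intro i
        have h2 := congrArg (P (i + 1)) (h1 i)
        simp only [map_sub, map_add, map_smul, map_zero, hPP, hPD, sub_self, smul_zero,
          zero_add] at h2
        exact sub_eq_zero.1 h2
      have hs : ∀ i, v (i + 1) - P (i + 1) (v (i + 1)) = t • D i (v i - P i (v i)) := by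
        intro i
        have h2 := h1 i
        rw [hu i] at h2
        rw [map_sub]
        have h3 : v (i + 1) - P (i + 1) (v (i + 1)) + D i (P i (v i)) -
          (t • (D i (v i) - D i (P i (v i))) + D i (P i (v i))) =
          v (i + 1) - P (i + 1) (v (i + 1)) - t • (D i (v i) - D i (P i (v i))) := by abel
        rw [h3] at h2
        exact sub_eq_zero.1 h2
      have h3 : (fun i => v i - P i (v i)) = 0 :=
        hS t ht _ (fun i => by rw [map_sub, hPP, sub_self]) hs
      have h4 : (fun i => P i (v i)) = 0 := hU t ht _ (fun i => hPP _ _) hu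
      funext i
      have h5 : v i - P i (v i) = 0 := congrFun h3 i
      have h6 : P i (v i) = 0 := congrFun h4 i
      rw [h6, sub_zero] at h5
      exact h5)
  have e1 : (fun i => (ContinuousLinearMap.id ℝ F - P (i + 1)) + (0 : ℝ) • P (i + 1)) =
      fun i : ZMod m => ContinuousLinearMap.id ℝ F - P (i + 1) := by
    funext i; rw [zero_smul, add_zero]
  have e2 : (fun i : ZMod m => (0 : ℝ) • (D i).comp (ContinuousLinearMap.id ℝ F - P i) +
      (D i).comp (P i)) = fun i => (D i).comp (P i) := by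
    funext i; rw [zero_smul, zero_add]
  have e3 : (fun i => (ContinuousLinearMap.id ℝ F - P (i + 1)) + (1 : ℝ) • P (i + 1)) =
      fun _ : ZMod m => ContinuousLinearMap.id ℝ F := by
    funext i; rw [one_smul, sub_add_cancel]
  have e4 : (fun i : ZMod m => (1 : ℝ) • (D i).comp (ContinuousLinearMap.id ℝ F - P i) +
      (D i).comp (P i)) = D := by
    funext i
    ext v
    simp
  rw [e1, e2, e3, e4] at key
  exact key

omit [NeZero m] [FiniteDimensional ℝ F] in
/-- A continuous connection along a segment of projections. -/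
theorem exists_conn {R : ℝ → ℝ → F →L[ℝ] F}
    (hc : ContinuousOn (fun p : ℝ × ℝ => R p.1 p.2) (Icc 0 1 ×ˢ Icc 0 1))
    (hRR : ∀ s ∈ Icc (0 : ℝ) 1, ∀ t ∈ Icc (0 : ℝ) 1, ∀ v, R s t (R s t v) = R s t v) :
    ∃ C : ℝ → F →L[ℝ] F, ContinuousOn C (Icc 0 1) ∧
      (∀ s ∈ Icc (0 : ℝ) 1, ∀ v, R s 1 (C s v) = C s v) ∧
      (∀ s ∈ Icc (0 : ℝ) 1, ∀ v, R s 0 v = v → C s v = 0 → v = 0) ∧
      (∀ s ∈ Icc (0 : ℝ) 1, (∀ t ∈ Icc (0 : ℝ) 1, R s t = R s 0) → C s = R s 0) := by
  have hcomp : IsCompact (Icc (0 : ℝ) 1 ×ˢ Icc (0 : ℝ) 1) := isCompact_Icc.prod isCompact_Icc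
  have huc := hcomp.uniformContinuousOn_of_continuous hc
  obtain ⟨δ, hδ, hu⟩ := Metric.uniformContinuousOn_iff.1 huc 1 one_pos
  obtain ⟨N, hN⟩ := exists_nat_gt (1 / δ)
  have hN0 : (0 : ℝ) < N := lt_trans (by positivity) hN
  have hN1 : 1 / (N : ℝ) < δ := by
    rw [div_lt_iff₀ hN0]
    rw [div_lt_iff₀ hδ] at hN
    linarith
  have hmem : ∀ j : ℕ, j ≤ N → (j : ℝ) / N ∈ Icc (0 : ℝ) 1 := fun j hj =>
    ⟨by positivity, by rw [div_le_one hN0]; exact_mod_cast hj⟩
  let C : ℕ → ℝ → F →L[ℝ] F := fun j => Nat.rec (fun s => R s 0)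
    (fun k c s => (R s (((k + 1 : ℕ) : ℝ) / N)).comp (c s)) j
  have hC0 : ∀ s, C 0 s = R s 0 := fun s => rfl
  have hCs : ∀ j s, C (j + 1) s = (R s (((j + 1 : ℕ) : ℝ) / N)).comp (C j s) := fun j s => rfl
  have hRc : ∀ t ∈ Icc (0 : ℝ) 1, ContinuousOn (fun s => R s t) (Icc 0 1) := by
    intro t ht
    exact hc.comp (f := fun s => (s, t)) (by fun_prop) fun s hs => ⟨hs, ht⟩
  have h1 : ∀ j ≤ N, ContinuousOn (C j) (Icc 0 1) ∧
      (∀ s ∈ Icc (0 : ℝ) 1, ∀ v, R s ((j : ℝ) / N) (C j s v) = C j s v) ∧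
      (∀ s ∈ Icc (0 : ℝ) 1, ∀ v, R s 0 v = v → C j s v = 0 → v = 0) ∧
      (∀ s ∈ Icc (0 : ℝ) 1, (∀ t ∈ Icc (0 : ℝ) 1, R s t = R s 0) → C j s = R s 0) := by
    intro j
    induction j with
    | zero =>
      intro _
      refine ⟨hRc 0 ⟨le_rfl, zero_le_one⟩, fun s hs v => ?_, fun s hs v h2 h3 => ?_,
        fun s hs _ => rfl⟩
      · rw [hC0]
        simp only [Nat.cast_zero, zero_div]
        exact hRR s hs 0 ⟨le_rfl, zero_le_one⟩ v
      · rw [hC0, h2] at h3
        exact h3
    | succ j ih =>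
      intro hj
      obtain ⟨i1, i2, i3, i4⟩ := ih (by omega)
      have hj1 := hmem (j + 1) hj
      have hj0 := hmem j (by omega)
      refine ⟨?_, fun s hs v => ?_, fun s hs v h2 h3 => ?_, fun s hs h2 => ?_⟩
      · exact (hRc _ hj1).clm_comp i1
      · rw [hCs, ContinuousLinearMap.comp_apply]
        exact hRR s hs _ hj1 _
      · apply i3 s hs v h2
        rw [hCs, ContinuousLinearMap.comp_apply] at h3
        set u := C j s v with hu'
        have h4 : R s ((j : ℝ) / N) u = u := i2 s hs v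
        have h5 : dist (R s (((j + 1 : ℕ) : ℝ) / N)) (R s ((j : ℝ) / N)) < 1 := by
          apply hu (s, ((j + 1 : ℕ) : ℝ) / N) ⟨hs, hj1⟩ (s, (j : ℝ) / N) ⟨hs, hj0⟩
          rw [Prod.dist_eq, dist_self, max_eq_right dist_nonneg, Real.dist_eq]
          have e1 : ((j + 1 : ℕ) : ℝ) / N - (j : ℝ) / N = 1 / N := by
            push_cast; ring
          rw [e1, abs_of_pos (by positivity)]
          exact hN1
        rw [dist_eq_norm] at h5
        have h6 : u = -((R s (((j + 1 : ℕ) : ℝ) / N) - R s ((j : ℝ) / N)) u) := by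
          rw [sub_apply, h3, h4, zero_sub, neg_neg]
        have h7 : ‖u‖ ≤ ‖R s (((j + 1 : ℕ) : ℝ) / N) - R s ((j : ℝ) / N)‖ * ‖u‖ := by
          conv_lhs => rw [h6, norm_neg]
          exact ContinuousLinearMap.le_opNorm _ _
        by_contra hne
        have h8 : 0 < ‖u‖ := norm_pos_iff.2 hne
        nlinarith
      · rw [hCs, i4 s hs h2, h2 _ hj1]
        ext v
        exact hRR s hs 0 ⟨le_rfl, zero_le_one⟩ v
  obtain ⟨h2, h3, h4, h5⟩ := h1 N le_rfl
  have e1 : (N : ℝ) / N = 1 := div_self hN0.ne'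
  rw [e1] at h3
  exact ⟨C N, h2, h3, h4, h5⟩

end Pool.Agent.Run7.h491.AC
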