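import Pool.Agent.Run7.h491.AC.UR
import Pool.Agent.Run7.h491.AC.Sgn

/-!
# The hyperbolic splitting in the ambient space
-/

set_option autoImplicit false
set_option linter.unusedSectionVars false

open scoped Manifold ContDiff Topology
open Set Filter Metric

namespace Pool.Agent.Run7.h491.AC

open Pool.Agent.H721R2

variable {E₀ : Type*} [NormedAddCommGroup E₀] [NormedSpace ℝ E₀] [FiniteDimensional ℝ E₀]
  {M : Type*} [MetricSpace M] [ChartedSpace E₀ M] [IsManifold 𝓘(ℝ, E₀) 1 M]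
  {F : Type*} [NormedAddCommGroup F] [NormedSpace ℝ F] [FiniteDimensional ℝ F]

theorem exists_pu (S U : Submodule ℝ E₀) (h : IsCompl S U) : ∃ p : E₀ →L[ℝ] E₀,
    (∀ u ∈ U, p u = u) ∧ (∀ s ∈ S, p s = 0) ∧ (∀ v, p v ∈ U) ∧ (∀ v, v - p v ∈ S) := by
  have h1 : ∀ v : E₀, ∃ s ∈ S, ∃ u ∈ U, s + u = v := fun v => by
    have h2 : v ∈ S ⊔ U := by rw [h.sup_eq_top]; trivial
    exact Submodule.mem_sup.mp h2
  have huniq : ∀ s ∈ S, ∀ u ∈ U, ∀ s' ∈ S, ∀ u' ∈ U, s + u = s' + u' → u = u' := by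
    intro s hs u hu s' hs' u' hu' heq
    have h2 : s - s' = u' - u := by
      rw [sub_eq_sub_iff_add_eq_add, heq, add_comm]
    have h3 : s - s' ∈ S ⊓ U := ⟨S.sub_mem hs hs', by rw [h2]; exact U.sub_mem hu' hu⟩
    rw [h.inf_eq_bot, Submodule.mem_bot, h2, sub_eq_zero] at h3
    exact h3.symm
  choose s hs u hu hsu using h1
  let p : E₀ →ₗ[ℝ] E₀ :=
    { toFun := u
      map_add' := fun x y => huniq _ (hs (x + y)) _ (hu (x + y)) _ (S.add_mem (hs x) (hs y)) _
        (U.add_mem (hu x) (hu y)) (by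
          rw [hsu (x + y)]
          calc x + y = (s x + u x) + (s y + u y) := by rw [hsu x, hsu y]
            _ = _ := by abel)
      map_smul' := fun c x => huniq _ (hs (c • x)) _ (hu (c • x)) _ (S.smul_mem c (hs x)) _
        (U.smul_mem c (hu x)) (by
          rw [hsu (c • x)]
          calc c • x = c • (s x + u x) := by rw [hsu x]
            _ = _ := by rw [smul_add]; rfl) }
  refine ⟨p.toContinuousLinearMap, fun w hw => ?_, fun w hw => ?_, fun v => hu v, fun v => ?_⟩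
  · exact huniq _ (hs w) _ (hu w) 0 S.zero_mem w hw (by rw [hsu, zero_add])
  · exact huniq _ (hs w) _ (hu w) w hw 0 U.zero_mem (by rw [hsu, add_zero])
  · show v - u v ∈ S
    have : v - u v = s v := by
      rw [sub_eq_iff_eq_add]; exact (hsu v).symm
    rw [this]
    exact hs v

/-- continuity of the ambient projection onto the unstable space -/
theorem P_cont [CompactSpace M] {e : M → F} (hiso : ∀ x y, dist x y = ‖e x - e y‖)
    (he : ContMDiff 𝓘(ℝ, E₀) 𝓘(ℝ, F) 1 e) (hinj : ∀ x, Function.Injective (dm E₀ e x))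
    {f : M ≃ₜ M} {Es Eu : M → Submodule ℝ E₀} {C a b Ls Lu : ℝ}
    (h : EAnosov e f Es Eu C a b Ls Lu) (pu : M → E₀ →L[ℝ] E₀)
    (hpu : ∀ x, (∀ u ∈ Eu x, pu x u = u) ∧ (∀ s ∈ Es x, pu x s = 0) ∧ (∀ v, pu x v ∈ Eu x) ∧
      (∀ v, v - pu x v ∈ Es x)) {R : ℝ} {r : M → F → M} {J : M → M → F →L[ℝ] E₀}
    (hU : UR e R r J) (q : M) :
    ContinuousOn (fun x => (dm E₀ e x).comp ((pu x).comp (J q x))) (ball q R) := by
  obtain ⟨K, hK, hang⟩ := h.angle he hinj
  have hK0 : 0 < K := by linarith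
  have hcs := h.contS he hinj
  have hcu := h.symm.contS he hinj
  have hec : Continuous e := he.continuous
  have hPrc : ContinuousOn (fun x => fderiv ℝ (fun y => e (r q y)) (e x)) (ball q R) := by
    have h1 : ContinuousOn (fderiv ℝ (fun y => e (r q y))) (ball (e q) R) :=
      (hU.smooth q e he).continuousOn_fderiv_of_isOpen isOpen_ball (by norm_num)
    exact h1.comp hec.continuousOn fun x hx => by
      rw [mem_ball, dist_eq_norm, ← hiso]; exact hx
  intro x hx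
  rw [Metric.continuousWithinAt_iff]
  intro ε hε
  set B := ‖fderiv ℝ (fun y => e (r q y)) (e x)‖ with hB
  have hB0 : 0 ≤ B := norm_nonneg _
  set η := ε / (16 * K * K * (B + 1)) with hη
  have hη0 : 0 < η := by positivity
  have hηε : η * (16 * K * K * (B + 1)) = ε := by
    rw [hη]; field_simp
  obtain ⟨d1, hd1, h1⟩ := Metric.continuousWithinAt_iff.1 (hPrc x hx) (ε / (4 * K)) (by positivity)
  obtain ⟨d2, hd2, h2⟩ := hcs η hη0
  obtain ⟨d3, hd3, h3⟩ := hcu η hη0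
  refine ⟨min d1 (min d2 d3), lt_min hd1 (lt_min hd2 hd3), fun y hy hyx => ?_⟩
  have hy1 : dist y x < d1 := hyx.trans_le (min_le_left _ _)
  have hy2 : dist x y < d2 := by
    rw [dist_comm]; exact hyx.trans_le ((min_le_right _ _).trans (min_le_left _ _))
  have hy3 : dist x y < d3 := by
    rw [dist_comm]; exact hyx.trans_le ((min_le_right _ _).trans (min_le_right _ _))
  have h4 := h1 hy hy1
  rw [dist_eq_norm] at h4 ⊢
  have hxR : dist x q < R := hx
  have hyR : dist y q < R := hy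
  refine lt_of_le_of_lt (ContinuousLinearMap.opNorm_le_bound _ (by positivity : 0 ≤ ε / 2) ?_)
    (half_lt_self hε)
  intro v
  set om := J q x v with hom
  set u := pu x om with hu
  set s := om - u with hs
  have hsm : s ∈ Es x := (hpu x).2.2.2 om
  have hum : u ∈ Eu x := (hpu x).2.2.1 om
  obtain ⟨s', hs', hss⟩ := h2 x y hy2 s hsm
  obtain ⟨u', hu', huu⟩ := h3 x y hy3 u hum
  have hsu : s + u = om := by rw [hs]; abel
  obtain ⟨ha1, ha2⟩ := hang x s hsm u hum
  rw [hsu] at ha1 ha2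
  have hPrx : dm E₀ e x om = fderiv ℝ (fun y => e (r q y)) (e x) v :=
    (hU.J_fd q x hxR e he v).symm
  have hPry : dm E₀ e y (J q y v) = fderiv ℝ (fun y => e (r q y)) (e y) v :=
    (hU.J_fd q y hyR e he v).symm
  have homB : ‖dm E₀ e x om‖ ≤ B * ‖v‖ := by
    rw [hPrx]; exact ContinuousLinearMap.le_opNorm _ _
  set z := J q y v - (s' + u') with hz
  have hpz : pu y (J q y v) = pu y z + u' := by
    rw [hz, map_sub, map_add, (hpu y).1 u' hu', (hpu y).2.1 s' hs']; abel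
  have hgoal : (((dm E₀ e y).comp ((pu y).comp (J q y))) -
      ((dm E₀ e x).comp ((pu x).comp (J q x)))) v =
      dm E₀ e y (pu y z) - (dm E₀ e x u - dm E₀ e y u') := by
    simp only [sub_apply, ContinuousLinearMap.comp_apply]
    rw [hpz, map_add]
    abel
  have hzn : dm E₀ e y z = (fderiv ℝ (fun y => e (r q y)) (e y) -
      fderiv ℝ (fun y => e (r q y)) (e x)) v + (dm E₀ e x s - dm E₀ e y s') +
      (dm E₀ e x u - dm E₀ e y u') := by
    rw [hz, map_sub, map_add, hPry, sub_apply, ← hPrx, ← hsu, map_add]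
    abel
  have hpuz : ‖dm E₀ e y (pu y z)‖ ≤ K * ‖dm E₀ e y z‖ := by
    have := (hang y (z - pu y z) ((hpu y).2.2.2 z) (pu y z) ((hpu y).2.2.1 z)).2
    rwa [sub_add_cancel] at this
  have h5 : ‖(fderiv ℝ (fun y => e (r q y)) (e y) -
      fderiv ℝ (fun y => e (r q y)) (e x)) v‖ ≤ ε / (4 * K) * ‖v‖ :=
    (ContinuousLinearMap.le_opNorm _ _).trans (mul_le_mul_of_nonneg_right h4.le (norm_nonneg _))
  have hv0 := norm_nonneg v
  have h6 : ‖dm E₀ e x s - dm E₀ e y s'‖ ≤ η * (K * (B * ‖v‖)) :=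
    hss.trans (mul_le_mul_of_nonneg_left (ha1.trans (mul_le_mul_of_nonneg_left homB hK0.le))
      hη0.le)
  have h7 : ‖dm E₀ e x u - dm E₀ e y u'‖ ≤ η * (K * (B * ‖v‖)) :=
    huu.trans (mul_le_mul_of_nonneg_left (ha2.trans (mul_le_mul_of_nonneg_left homB hK0.le))
      hη0.le)
  have h8 : ‖dm E₀ e y z‖ ≤ ε / (4 * K) * ‖v‖ + 2 * (η * (K * (B * ‖v‖))) := by
    rw [hzn]
    have i1 := norm_add_le ((fderiv ℝ (fun y => e (r q y)) (e y) -
      fderiv ℝ (fun y => e (r q y)) (e x)) v + (dm E₀ e x s - dm E₀ e y s'))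
      (dm E₀ e x u - dm E₀ e y u')
    have i2 := norm_add_le ((fderiv ℝ (fun y => e (r q y)) (e y) -
      fderiv ℝ (fun y => e (r q y)) (e x)) v) (dm E₀ e x s - dm E₀ e y s')
    linarith
  rw [hgoal]
  have i3 := norm_sub_le (dm E₀ e y (pu y z)) (dm E₀ e x u - dm E₀ e y u')
  have i4 : K * ‖dm E₀ e y z‖ ≤ K * (ε / (4 * K) * ‖v‖ + 2 * (η * (K * (B * ‖v‖)))) :=
    mul_le_mul_of_nonneg_left h8 hK0.le
  have i5 : K * (ε / (4 * K) * ‖v‖ + 2 * (η * (K * (B * ‖v‖)))) =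
      ε / 4 * ‖v‖ + 2 * (η * (K * K * B * ‖v‖)) := by
    field_simp
  have i6 : η * (K * K * B * ‖v‖) ≤ ε / 16 * ‖v‖ := by
    have : ε / 16 * ‖v‖ = η * (K * K * (B + 1) * ‖v‖) := by rw [← hηε]; ring
    rw [this]
    apply mul_le_mul_of_nonneg_left _ hη0.le
    apply mul_le_mul_of_nonneg_right _ hv0
    nlinarith [mul_pos hK0 hK0]
  have i7 : η * (K * (B * ‖v‖)) ≤ η * (K * K * B * ‖v‖) := by
    apply mul_le_mul_of_nonneg_left _ hη0.le
    have : 0 ≤ K * (B * ‖v‖) := by positivity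
    nlinarith
  have i8 : 0 ≤ ε * ‖v‖ := by positivity
  linarith

end Pool.Agent.Run7.h491.AC
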