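import Pool.Agent.Run7.h491.AC.Hyp

/-!
# Hyperbolicity of cyclic products
-/

set_option autoImplicit false
set_option linter.unusedSectionVars false

open scoped Manifold ContDiff Topology
open Set Filter Metric

namespace Pool.Agent.Run7.h491.AC

open Pool.Agent.H721R2

variable {E₀ : Type*} [NormedAddCommGroup E₀] [NormedSpace ℝ E₀] [FiniteDimensional ℝ E₀]
  {M : Type*} [MetricSpace M] [ChartedSpace E₀ M] [IsManifold 𝓘(ℝ, E₀) 1 M]
  {F : Type*} [NormedAddCommGroup F] [NormedSpace ℝ F] [FiniteDimensional ℝ F]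

/-- the derivative of the local representation of a map -/
theorem fd_rep {e : M → F} (he : ContMDiff 𝓘(ℝ, E₀) 𝓘(ℝ, F) 1 e) {R : ℝ} {r : M → F → M}
    {J : M → M → F →L[ℝ] E₀} (hU : UR e R r J) (G : M → M)
    (hG : ContMDiff 𝓘(ℝ, E₀) 𝓘(ℝ, E₀) 1 G) (q x : M) (hx : dist x q < R) (w : F) :
    fderiv ℝ (fun y => e (G (r q y))) (e x) w = dm E₀ e (G x) (dg E₀ G x (J q x w)) := by
  have h1 := hU.J_fd q x hx (e ∘ G) (he.comp hG) w
  rw [dm_comp e he G hG] at h1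
  exact h1

theorem kappa {e : M → F} (he : ContMDiff 𝓘(ℝ, E₀) 𝓘(ℝ, F) 1 e)
    {g : M ≃ₜ M} {Es Eu : M → Submodule ℝ E₀} {C a b Ls Lu : ℝ}
    (h : EAnosov e g Es Eu C a b Ls Lu) {K : ℝ} (hK : 1 ≤ K)
    (hang : ∀ x, ∀ s ∈ Es x, ∀ u ∈ Eu x,
      ‖dm E₀ e x s‖ ≤ K * ‖dm E₀ e x (s + u)‖ ∧ ‖dm E₀ e x u‖ ≤ K * ‖dm E₀ e x (s + u)‖)
    {N : ℕ} (ha : C * a ^ N ≤ 1 / 2) (hb : C * b ^ N ≤ 1 / 2)
    {R : ℝ} {r : M → F → M} {J : M → M → F →L[ℝ] E₀} (hU : UR e R r J) {Λ : ℝ} (hΛ : 1 ≤ Λ)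
    (hbd : ∀ q w, ‖fderiv ℝ (fun y => e (r q y)) (e q) w‖ ≤ Λ * ‖w‖) {m : ℕ} [NeZero m]
    (q : ZMod m → M) (hq : ∀ i, q (i + 1) = g^[N] (q i)) (v : ZMod m → F) :
    ‖v‖ ≤ 5 * K * Λ * ‖cy (fun _ => ContinuousLinearMap.id ℝ F)
      (fun i => fderiv ℝ (fun y => e (g^[N] (r (q i) y))) (e (q i))) v‖ := by
  have hsm := iter_smooth g h.smooth N
  have hC := h.C_pos
  have hself : ∀ x : M, dist x x < R := fun x => by rw [dist_self]; exact hU.R_pos
  set W := ‖cy (fun _ => ContinuousLinearMap.id ℝ F)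
      (fun i => fderiv ℝ (fun y => e (g^[N] (r (q i) y))) (e (q i))) v‖ with hW
  have hW0 : 0 ≤ W := norm_nonneg _
  -- the increments
  let w : ZMod m → F := fun i => v (i + 1) -
    fderiv ℝ (fun y => e (g^[N] (r (q i) y))) (e (q i)) (v i)
  have hw : ∀ i, ‖w i‖ ≤ W := fun i => norm_le_pi_norm (cy (fun _ => ContinuousLinearMap.id ℝ F)
      (fun i => fderiv ℝ (fun y => e (g^[N] (r (q i) y))) (e (q i))) v) i
  have hA : ∀ i, fderiv ℝ (fun y => e (g^[N] (r (q i) y))) (e (q i)) (v i) =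
      dm E₀ e (q (i + 1)) (dg E₀ (g^[N]) (q i) (J (q i) (q i) (v i))) := fun i => by
    rw [fd_rep he hU _ hsm _ _ (hself _), hq]
  let om : ZMod m → E₀ := fun i => J (q i) (q i) (v i)
  have hom : ∀ i, om (i + 1) = J (q (i + 1)) (q (i + 1)) (w i) + dg E₀ (g^[N]) (q i) (om i) := by
    intro i
    have h1 : v (i + 1) = w i + dm E₀ e (q (i + 1)) (dg E₀ (g^[N]) (q i) (om i)) := by
      rw [← hA i]
      show v (i + 1) = v (i + 1) - _ + _
      abel
    show J (q (i + 1)) (q (i + 1)) (v (i + 1)) = _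
    rw [h1, map_add, hU.J_id _ _ (hself _)]
  have hPr : ∀ i z, dm E₀ e (q i) (J (q i) (q i) z) =
      fderiv ℝ (fun y => e (r (q i) y)) (e (q i)) z := fun i z =>
    (hU.J_fd _ _ (hself _) e he z).symm
  have hJw : ∀ i, ‖dm E₀ e (q (i + 1)) (J (q (i + 1)) (q (i + 1)) (w i))‖ ≤ Λ * W := fun i => by
    rw [hPr]
    exact (hbd _ _).trans (mul_le_mul_of_nonneg_left (hw i) (by linarith))
  choose pu hpu using fun x => exists_pu (Es x) (Eu x) (h.compl x)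
  -- splitting
  let s : ZMod m → E₀ := fun i => om i - pu (q i) (om i)
  let u : ZMod m → E₀ := fun i => pu (q i) (om i)
  have hs : ∀ i, s i ∈ Es (q i) := fun i => (hpu (q i)).2.2.2 _
  have hu : ∀ i, u i ∈ Eu (q i) := fun i => (hpu (q i)).2.2.1 _
  have hsum : ∀ i, s i + u i = om i := fun i => sub_add_cancel _ _
  have hDs : ∀ i, dg E₀ (g^[N]) (q i) (s i) ∈ Es (q (i + 1)) := fun i => by
    rw [hq]; exact h.mapS N _ _ (hs i)
  have hDu : ∀ i, dg E₀ (g^[N]) (q i) (u i) ∈ Eu (q (i + 1)) := fun i => by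
    rw [hq]; exact h.mapU N _ _ (hu i)
  have hunext : ∀ i, u (i + 1) = pu (q (i + 1)) (J (q (i + 1)) (q (i + 1)) (w i)) +
      dg E₀ (g^[N]) (q i) (u i) := by
    intro i
    show pu (q (i + 1)) (om (i + 1)) = _
    rw [hom i, map_add, ← hsum i, map_add, map_add, (hpu _).2.1 _ (hDs i), (hpu _).1 _ (hDu i),
      zero_add]
  have hsnext : ∀ i, s (i + 1) = (J (q (i + 1)) (q (i + 1)) (w i) -
      pu (q (i + 1)) (J (q (i + 1)) (q (i + 1)) (w i))) + dg E₀ (g^[N]) (q i) (s i) := by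
    intro i
    have h1 := hsum (i + 1)
    rw [hunext i, hom i, ← hsum i, map_add] at h1
    have h2 : s (i + 1) = s (i + 1) + (pu (q (i + 1)) (J (q (i + 1)) (q (i + 1)) (w i)) +
      dg E₀ (g^[N]) (q i) (u i)) - (pu (q (i + 1)) (J (q (i + 1)) (q (i + 1)) (w i)) +
      dg E₀ (g^[N]) (q i) (u i)) := by abel
    rw [h2, h1]
    abel
  -- norms
  have hK0 : 0 < K := by linarith
  have hang' : ∀ i z, ‖dm E₀ e (q i) (z - pu (q i) z)‖ ≤ K * ‖dm E₀ e (q i) z‖ ∧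
      ‖dm E₀ e (q i) (pu (q i) z)‖ ≤ K * ‖dm E₀ e (q i) z‖ := by
    intro i z
    have := hang (q i) (z - pu (q i) z) ((hpu _).2.2.2 _) (pu (q i) z) ((hpu _).2.2.1 _)
    rwa [sub_add_cancel] at this
  have hKW : ∀ i, ‖dm E₀ e (q (i + 1)) (J (q (i + 1)) (q (i + 1)) (w i) -
      pu (q (i + 1)) (J (q (i + 1)) (q (i + 1)) (w i)))‖ ≤ K * (Λ * W) ∧
      ‖dm E₀ e (q (i + 1)) (pu (q (i + 1)) (J (q (i + 1)) (q (i + 1)) (w i)))‖ ≤
        K * (Λ * W) := fun i =>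
    ⟨(hang' _ _).1.trans (mul_le_mul_of_nonneg_left (hJw i) hK0.le),
      (hang' _ _).2.trans (mul_le_mul_of_nonneg_left (hJw i) hK0.le)⟩
  let S : ZMod m → F := fun i => dm E₀ e (q i) (s i)
  let U : ZMod m → F := fun i => dm E₀ e (q i) (u i)
  have hΛW : 0 ≤ K * (Λ * W) := by positivity
  have hSb : ‖S‖ ≤ 2 * (K * (Λ * W)) := by
    have h1 : ‖S‖ ≤ K * (Λ * W) + 1 / 2 * ‖S‖ := by
      rw [pi_norm_le_iff_of_nonneg (by positivity)]
      intro i
      have e0 : i = (i - 1) + 1 := by rw [sub_add_cancel]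
      rw [e0]
      show ‖dm E₀ e (q (i - 1 + 1)) (s (i - 1 + 1))‖ ≤ _
      rw [hsnext, map_add]
      refine (norm_add_le _ _).trans (add_le_add (hKW _).1 ?_)
      have h2 := h.hS N (q (i - 1)) _ (hs (i - 1))
      rw [← hq] at h2
      refine h2.trans (mul_le_mul ha (norm_le_pi_norm S (i - 1)) (norm_nonneg _) (by norm_num))
    linarith
  have hUb : ‖U‖ ≤ K * (Λ * W) := by
    have h1 : ‖U‖ ≤ 1 / 2 * (‖U‖ + K * (Λ * W)) := by
      rw [pi_norm_le_iff_of_nonneg (by positivity)]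
      intro i
      have h2 := h.hU' N (q (i + 1)) _ (hDu i)
      have h3 : dg E₀ (g.symm^[N]) (q (i + 1)) (dg E₀ (g^[N]) (q i) (u i)) = u i := by
        rw [hq]
        exact dg_inv (g^[N]) (g.symm^[N]) hsm (iter_smooth _ h.smooth' N) (iter_left g N) _ _
      rw [h3, hq, iter_left, ← hq] at h2
      have h4 : dm E₀ e (q (i + 1)) (dg E₀ (g^[N]) (q i) (u i)) =
          U (i + 1) - dm E₀ e (q (i + 1)) (pu (q (i + 1))
            (J (q (i + 1)) (q (i + 1)) (w i))) := by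
        show _ = dm E₀ e (q (i + 1)) (u (i + 1)) - _
        rw [hunext i, map_add]
        abel
      rw [h4] at h2
      refine h2.trans (mul_le_mul hb ?_ (norm_nonneg _) (by norm_num))
      exact (norm_sub_le _ _).trans (add_le_add (norm_le_pi_norm U (i + 1)) (hKW i).2)
    linarith
  rw [pi_norm_le_iff_of_nonneg (by positivity)]
  intro i
  have e0 : i = (i - 1) + 1 := by rw [sub_add_cancel]
  rw [e0]
  set j := i - 1
  have h1 : v (j + 1) = w j + (dm E₀ e (q (j + 1)) (om (j + 1)) -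
      dm E₀ e (q (j + 1)) (J (q (j + 1)) (q (j + 1)) (w j))) := by
    rw [hom j, map_add, add_sub_cancel_left, ← hA j]
    show v (j + 1) = v (j + 1) - _ + _
    abel
  have h2 : dm E₀ e (q (j + 1)) (om (j + 1)) = S (j + 1) + U (j + 1) := by
    rw [← hsum, map_add]
  have h3 := norm_le_pi_norm S (j + 1)
  have h4 := norm_le_pi_norm U (j + 1)
  have h5 : W ≤ Λ * W := by nlinarith
  have h6 : Λ * W ≤ K * (Λ * W) := by nlinarith
  rw [h1, h2]
  have h7 := norm_add_le (w j) (S (j + 1) + U (j + 1) -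
    dm E₀ e (q (j + 1)) (J (q (j + 1)) (q (j + 1)) (w j)))
  have h8 := norm_sub_le (S (j + 1) + U (j + 1))
    (dm E₀ e (q (j + 1)) (J (q (j + 1)) (q (j + 1)) (w j)))
  have h9 := norm_add_le (S (j + 1)) (U (j + 1))
  have h10 := hw j
  have h11 := hJw j
  have e1 : 5 * K * Λ * W = 5 * (K * (Λ * W)) := by ring
  rw [e1]
  linarith

end Pool.Agent.Run7.h491.AC
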