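import Pool.Agent.Run7.h491.AC.Near
import Pool.Agent.Run7.h333.AC.DO
import Pool.Agent.Y331.EP.Man
import Pool.Agent.H789R2.AN.Man

/-!
# `C⁰`-close Anosov diffeomorphisms
-/

set_option autoImplicit false
set_option linter.unusedSectionVars false

open scoped Manifold ContDiff Topology
open Set Filter Metric

namespace Pool.Agent.Run7.h491.AC

open Pool.Agent.H721R2 Pool.Agent.H789R2.AN Pool.Agent.TH289.K Pool.Agent.TH289.L
open Pool.Agent.Y331.EP

/-- iterates of uniformly close maps are uniformly close -/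
theorem iter_close {X : Type*} [MetricSpace X] [CompactSpace X] (g : X ≃ₜ X) (N : ℕ) :
    ∀ δ > 0, ∃ δ' > 0, ∀ f : X → X, (∀ x, dist (f x) (g x) ≤ δ') →
      ∀ x, dist (f^[N] x) (g^[N] x) ≤ δ := by
  induction N with
  | zero =>
    intro δ hδ
    exact ⟨1, one_pos, fun f _ x => by simpa using hδ.le⟩
  | succ N ih =>
    intro δ hδ
    have huc : UniformContinuous g := CompactSpace.uniformContinuous_of_continuous g.continuous
    obtain ⟨η, hη, h1⟩ := Metric.uniformContinuous_iff.1 huc (δ / 2) (half_pos hδ)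
    obtain ⟨δ₁, hδ₁, h2⟩ := ih (η / 2) (half_pos hη)
    refine ⟨min δ₁ (δ / 2), lt_min hδ₁ (half_pos hδ), fun f hf x => ?_⟩
    have h3 := h2 f (fun y => (hf y).trans (min_le_left _ _)) x
    have h4 := (hf (f^[N] x)).trans (min_le_right _ _)
    have h5 := (h1 (h3.trans_lt (half_lt_self hη))).le
    rw [Function.iterate_succ_apply', Function.iterate_succ_apply']
    have h6 := dist_triangle (f (f^[N] x)) (g (f^[N] x)) (g (g^[N] x))
    linarith

/-- From unique nearby periodic orbits of the `N`-th powers to unique periodic points in the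
fibres of the semiconjugacy. -/
theorem fibre_unique {X : Type*} [MetricSpace X] [CompactSpace X] {f g : X ≃ₜ X} {h : X → X}
    {eg : ℝ} (hEg : Ex g eg) (hh : ∀ x, h (f x) = g (h x)) {N : ℕ} (hN : 1 ≤ N) {ρ ε η : ℝ}
    (hε : ∀ x, dist (h x) x ≤ ε) (hερ : ε < ρ) (hsum : ρ + ε < η)
    (hη : ∀ x y, dist x y < η → ∀ j < N, dist (g^[j] x) (g^[j] y) ≤ eg)
    (hu : ∀ (m : ℕ) [NeZero m] (q : ZMod m → X), (∀ i, q (i + 1) = g^[N] (q i)) →
        ∃! x : ZMod m → X, (∀ i, dist (x i) (q i) < ρ) ∧ ∀ i, x (i + 1) = f^[N] (x i)) :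
    ∀ n : ℕ, 1 ≤ n → ∀ q, g^[n] q = q → ∃! p, f^[n] p = p ∧ h p = q := by
  intro n hn q hq
  have : NeZero n := ⟨by omega⟩
  have hgf : ∀ (k : ℕ) (x : X), h (f^[k] x) = g^[k] (h x) := fun k x => ts_iter hh k x
  -- points fixed by `f^(N n)` over `q` are unique and exist
  have key : ∃! p, f^[N * n] p = p ∧ h p = q := by
    -- the cyclic orbit of `q`
    have hper : ∀ {F : X → X} {p : X}, F^[N * n] p = p → ∀ i : ZMod n,
        F^[N * (i + 1).val] p = F^[N] (F^[N * i.val] p) := by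
      intro F p hp i
      rw [← Function.iterate_add_apply]
      by_cases hlast : i.val + 1 = n
      · have e1 : (i + 1).val = 0 := by
          rw [ZMod.val_add, ZMod.val_one_eq_one_mod, Nat.add_mod_mod, hlast, Nat.mod_self]
        rw [e1, Nat.mul_zero]
        have e2 : N + N * i.val = N * n := by
          calc N + N * i.val = N * (i.val + 1) := by ring
            _ = N * n := by rw [hlast]
        rw [e2, hp]
        rfl
      · have hlt := ZMod.val_lt i
        have e1 : (i + 1).val = i.val + 1 := by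
          rw [ZMod.val_add, ZMod.val_one_eq_one_mod, Nat.add_mod_mod]
          exact Nat.mod_eq_of_lt (by omega)
        rw [e1]
        congr 1
        ring
    have hgq : g^[N * n] q = q := by
      rw [Nat.mul_comm, Function.iterate_mul]
      exact Function.iterate_fixed hq N
    obtain ⟨x, ⟨hx1, hx2⟩, hxu⟩ := hu n (fun i => g^[N * i.val] q) (hper hgq)
    have hxk : ∀ k : ℕ, x k = f^[N * k] (x 0) := by
      intro k
      have := cyc_iter hx2 0 k
      rw [zero_add] at this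
      rw [this, Function.iterate_mul]
    have hx0 : f^[N * n] (x 0) = x 0 := by
      rw [← hxk, ZMod.natCast_self]
    have hhx : h (x 0) = q := by
      refine per_eq hEg (n := N * n) (Nat.mul_pos hN hn) ?_ hgq ?_
      · rw [← hgf, hx0]
      · intro k hk
        have hk1 : k / N < n := Nat.div_lt_of_lt_mul hk
        have e1 : k = k % N + N * (k / N) := (Nat.mod_add_div k N).symm
        rw [e1, Function.iterate_add_apply, Function.iterate_add_apply]
        apply hη _ _ _ _ (Nat.mod_lt _ hN)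
        rw [← hgf, ← hxk]
        have h1 := hx1 ((k / N : ℕ) : ZMod n)
        rw [ZMod.val_natCast, Nat.mod_eq_of_lt hk1] at h1
        have h2 := hε (x ((k / N : ℕ) : ZMod n))
        have h3 := dist_triangle (h (x ((k / N : ℕ) : ZMod n))) (x ((k / N : ℕ) : ZMod n))
          (g^[N * (k / N)] q)
        linarith
    refine ⟨x 0, ⟨hx0, hhx⟩, ?_⟩
    rintro p ⟨hp1, hp2⟩
    have h1 := hxu (fun i => f^[N * i.val] p) ⟨fun i => ?_, hper hp1⟩
    · have h2 := congrFun h1 0
      simp only [ZMod.val_zero, Nat.mul_zero] at h2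
      exact h2
    · show dist (f^[N * i.val] p) (g^[N * i.val] q) < ρ
      rw [← hp2, ← hgf, dist_comm]
      exact (hε _).trans_lt hερ
  obtain ⟨p, ⟨hp1, hp2⟩, hpu⟩ := key
  have hfix : ∀ p', f^[n] p' = p' → f^[N * n] p' = p' := fun p' h' => by
    rw [Nat.mul_comm, Function.iterate_mul]
    exact Function.iterate_fixed h' N
  refine ⟨p, ⟨?_, hp2⟩, fun p' hp' => hpu p' ⟨hfix p' hp'.1, hp'.2⟩⟩
  apply hpu
  constructor
  · rw [← Function.iterate_add_apply, Nat.add_comm, Function.iterate_add_apply, hp1]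
  · rw [hgf, hp2, hq]

universe u v

section manifold

variable {E : Type v} [NormedAddCommGroup E] [NormedSpace ℝ E] [FiniteDimensional ℝ E]

/-- the main theorem in an embedded metric -/
theorem emb_main {M : Type u} [TopologicalSpace M] [T2Space M] [CompactSpace M] [ConnectedSpace M]
    [ChartedSpace E M] [IsManifold 𝓘(ℝ, E) ∞ M] (g : Diffeomorph 𝓘(ℝ, E) 𝓘(ℝ, E) M M 1)
    (Es Eu : ∀ x : M, Submodule ℝ (TangentSpace 𝓘(ℝ, E) x)) (hg : IsAnosov g Es Eu) :
    ∃ (m : ℕ) (e : M → EuclideanSpace ℝ (Fin m)), Topology.IsClosedEmbedding e ∧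
      ∀ ε > 0, ∃ δ > 0, ∀ (f : Diffeomorph 𝓘(ℝ, E) 𝓘(ℝ, E) M M 1)
        (Es' Eu' : ∀ x : M, Submodule ℝ (TangentSpace 𝓘(ℝ, E) x)), IsAnosov f Es' Eu' →
        (∀ x, ‖e (f x) - e (g x)‖ ≤ δ) →
        ∃ h : M → M, Continuous h ∧ (∀ x, h (f x) = g (h x)) ∧ (∀ x, ‖e (h x) - e x‖ ≤ ε) ∧
          (TopTransitive f ↔ TopTransitive g) ∧ (TopTransitive g → Function.Bijective h) ∧
          BijOn h (closure (Function.periodicPts f)) (closure (Function.periodicPts g)) ∧
          h ⁻¹' closure (Function.periodicPts g) = closure (Function.periodicPts f) := by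
  obtain ⟨m, e, he, hemb, hinj⟩ := exists_embedding_euclidean_of_compact (I := 𝓘(ℝ, E)) (M := M)
  refine ⟨m, e, hemb, ?_⟩
  let iM : MetricSpace M := hemb.isEmbedding.comapMetricSpace e
  have hiso : ∀ x y : M, dist x y = ‖e x - e y‖ := fun x y => dist_eq_norm (e x) (e y)
  have he1 : ContMDiff 𝓘(ℝ, E) (𝓡 m) 1 e := he.of_le (by simp)
  obtain ⟨C, a, b, Ls, Lu, hE⟩ := eanosov_of_isAnosov e he1 hinj g Es Eu hg
  obtain ⟨N, hN, hnear⟩ := near_unique hiso he1 hinj hE
  obtain ⟨eg, hEg⟩ := ex_of_expansive (expansive_of_anosov g Es Eu hg)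
  have hSg := man_shad g Es Eu hg
  obtain ⟨η, hη, hη1⟩ : ∃ η > 0, ∀ x y, dist x y < η → ∀ j < N,
      dist (g.toHomeomorph^[j] x) (g.toHomeomorph^[j] y) ≤ eg := by
    have h1 : ∀ j ∈ Finset.range N, ∃ η > 0, ∀ x y, dist x y < η →
        dist (g.toHomeomorph^[j] x) (g.toHomeomorph^[j] y) ≤ eg := by
      intro j _
      have huc : UniformContinuous (g.toHomeomorph^[j]) :=
        CompactSpace.uniformContinuous_of_continuous (g.toHomeomorph.continuous.iterate j)
      obtain ⟨η, hη, h2⟩ := Metric.uniformContinuous_iff.1 huc eg hEg.pos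
      exact ⟨η, hη, fun x y hxy => (h2 hxy).le⟩
    obtain ⟨η, hη, h2⟩ := fin_min (Finset.range N) (fun j η => ∀ x y, dist x y < η →
        dist (g.toHomeomorph^[j] x) (g.toHomeomorph^[j] y) ≤ eg)
      (fun j a b _ hab h x y hxy => h x y (hxy.trans_le hab)) h1
    exact ⟨η, hη, fun x y hxy j hj => h2 j (Finset.mem_range.2 hj) x y hxy⟩
  obtain ⟨ρ, hρ, hρ', δ₁, hδ₁, hu⟩ := hnear (η / 3) (by positivity)
  obtain ⟨δ₃, hδ₃, hit⟩ := iter_close g.toHomeomorph N δ₁ hδ₁
  intro ε hε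
  obtain ⟨δ₂, hδ₂, hts⟩ := TS_main hEg hSg (min ε (min (ρ / 2) (η / 3)))
    (lt_min hε (lt_min (half_pos hρ) (by positivity)))
  refine ⟨min δ₂ δ₃, lt_min hδ₂ hδ₃, fun f Es' Eu' hf hclose => ?_⟩
  have hd : ∀ x, dist (f.toHomeomorph x) (g.toHomeomorph x) ≤ min δ₂ δ₃ := fun x => by
    rw [hiso]; exact hclose x
  obtain ⟨C', a', b', Ls', Lu', hE'⟩ := eanosov_of_isAnosov e he1 hinj f Es' Eu' hf
  obtain ⟨ef, hEf⟩ := ex_of_expansive (expansive_of_anosov f Es' Eu' hf)
  have hSf := man_shad f Es' Eu' hf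
  obtain ⟨h, hc, hh, hdist⟩ := hts f.toHomeomorph fun x => (hd x).trans (min_le_left _ _)
  have hlt : min ε (min (ρ / 2) (η / 3)) ≤ ρ / 2 := (min_le_right _ _).trans (min_le_left _ _)
  have hlt' : min ε (min (ρ / 2) (η / 3)) ≤ η / 3 := (min_le_right _ _).trans (min_le_right _ _)
  have hI := fibre_unique hEg hh hN hdist (by linarith) (by linarith) hη1
    (hu f.toHomeomorph Es' Eu' C' a' b' Ls' Lu' hE'
      (hit f.toHomeomorph fun x => (hd x).trans (min_le_right _ _)))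
  have hD := D_main hEf hSf hEg hSg hc hh hI
  have hO := D_omega hEf hSf hEg hSg hc hh hI
  refine ⟨h, hc, hh, fun x => ?_, hD.1, hD.2, hO.1, hO.2⟩
  rw [← hiso]
  exact (hdist x).trans (min_le_left _ _)

/-- the main theorem in an arbitrary compatible metric -/
theorem met_main {M : Type u} [MetricSpace M] [CompactSpace M] [ConnectedSpace M]
    [ChartedSpace E M] [IsManifold 𝓘(ℝ, E) ∞ M] (g : Diffeomorph 𝓘(ℝ, E) 𝓘(ℝ, E) M M 1)
    (Es Eu : ∀ x : M, Submodule ℝ (TangentSpace 𝓘(ℝ, E) x)) (hg : IsAnosov g Es Eu) :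
    ∀ ε > 0, ∃ δ > 0, ∀ (f : Diffeomorph 𝓘(ℝ, E) 𝓘(ℝ, E) M M 1)
      (Es' Eu' : ∀ x : M, Submodule ℝ (TangentSpace 𝓘(ℝ, E) x)), IsAnosov f Es' Eu' →
      (∀ x, dist (f x) (g x) < δ) →
      ∃ h : M → M, Continuous h ∧ (∀ x, h (f x) = g (h x)) ∧ (∀ x, dist (h x) x < ε) ∧
        BijOn h (closure (Function.periodicPts f)) (closure (Function.periodicPts g)) ∧
        h ⁻¹' closure (Function.periodicPts g) = closure (Function.periodicPts f) ∧
        (TopTransitive f ↔ TopTransitive g) ∧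
        (TopTransitive g → ∃ H : M ≃ₜ M, ∀ x, H x = h x) := by
  obtain ⟨m, e, hemb, hmain⟩ := emb_main g Es Eu hg
  intro ε hε
  have hec : UniformContinuous e :=
    CompactSpace.uniformContinuous_of_continuous hemb.continuous
  -- the inverse is uniformly continuous
  obtain ⟨ε₁, hε₁, h1⟩ : ∃ ε₁ > 0, ∀ x y : M, ‖e x - e y‖ ≤ ε₁ → dist x y < ε := by
    have hcr : CompactSpace (range e) := isCompact_iff_compactSpace.1
      (isCompact_range hemb.continuous)
    let k : M ≃ₜ range e := hemb.isEmbedding.toHomeomorph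
    have huc : UniformContinuous k.symm :=
      CompactSpace.uniformContinuous_of_continuous k.symm.continuous
    obtain ⟨r, hr, h2⟩ := Metric.uniformContinuous_iff.1 huc ε hε
    refine ⟨r / 2, half_pos hr, fun x y hxy => ?_⟩
    have h3 : dist (k x) (k y) < r := by
      rw [Subtype.dist_eq, dist_eq_norm]
      show ‖e x - e y‖ < r
      exact lt_of_le_of_lt hxy (half_lt_self hr)
    have h4 := h2 h3
    rwa [k.symm_apply_apply, k.symm_apply_apply] at h4
  obtain ⟨δ₁, hδ₁, h2⟩ := hmain ε₁ hε₁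
  obtain ⟨δ, hδ, h3⟩ := Metric.uniformContinuous_iff.1 hec δ₁ hδ₁
  refine ⟨δ, hδ, fun f Es' Eu' hf hclose => ?_⟩
  obtain ⟨h, hc, hh, hd, htt, hbij, hO1, hO2⟩ := h2 f Es' Eu' hf (fun x => by
    rw [← dist_eq_norm]
    exact (h3 (hclose x)).le)
  refine ⟨h, hc, hh, fun x => h1 _ _ (hd x), hO1, hO2, htt, fun hT => ?_⟩
  exact ⟨hc.homeoOfEquivCompactToT2 (f := Equiv.ofBijective h (hbij hT)), fun x => rfl⟩

/-- constancy in families -/
theorem fam_main {M : Type u} [MetricSpace M] [CompactSpace M] [ConnectedSpace M]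
    [ChartedSpace E M] [IsManifold 𝓘(ℝ, E) ∞ M] {T : Type*} [TopologicalSpace T]
    [PreconnectedSpace T] (f : T → Diffeomorph 𝓘(ℝ, E) 𝓘(ℝ, E) M M 1)
    (Es Eu : T → ∀ x : M, Submodule ℝ (TangentSpace 𝓘(ℝ, E) x))
    (hA : ∀ t, IsAnosov (f t) (Es t) (Eu t)) (hc : Continuous fun p : T × M => f p.1 p.2)
    (t₀ : T) (h0 : TopTransitive (f t₀)) (t : T) :
    TopTransitive (f t) ∧ ∃ H : M ≃ₜ M, ∀ x, H (f t x) = f t₀ (H x) := by
  let S : Set T := {t | TopTransitive (f t) ∧ ∃ H : M ≃ₜ M, ∀ x, H (f t x) = f t₀ (H x)}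
  -- the local statement
  have hloc : ∀ t₁ : T, ∀ᶠ t in 𝓝 t₁, (TopTransitive (f t) ↔ TopTransitive (f t₁)) ∧
      (TopTransitive (f t₁) → ∃ H : M ≃ₜ M, ∀ x, H (f t x) = f t₁ (H x)) := by
    intro t₁
    obtain ⟨δ, hδ, h1⟩ := met_main (f t₁) (Es t₁) (Eu t₁) (hA t₁) 1 one_pos
    have hev : ∀ᶠ t in 𝓝 t₁, ∀ x, dist (f t x) (f t₁ x) < δ := by
      let F : C(T × M, M) := ⟨fun p => f p.1 p.2, hc⟩
      have h2 : ContinuousAt F.curry t₁ := F.curry.continuous.continuousAt
      have h3 := Metric.continuousAt_iff'.1 h2 δ hδ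
      filter_upwards [h3] with t ht x
      exact (ContinuousMap.dist_apply_le_dist x).trans_lt ht
    filter_upwards [hev] with t ht
    obtain ⟨h, -, hh, -, -, -, htt, hH⟩ := h1 (f t) (Es t) (Eu t) (hA t) ht
    refine ⟨htt, fun hT => ?_⟩
    obtain ⟨H, hH⟩ := hH hT
    exact ⟨H, fun x => by rw [hH, hH, hh]⟩
  have hopen : IsOpen S := by
    rw [isOpen_iff_mem_nhds]
    rintro t₁ ⟨hT, H, hH⟩
    filter_upwards [hloc t₁] with t ht
    obtain ⟨H', hH'⟩ := ht.2 hT
    exact ⟨ht.1.2 hT, H'.trans H, fun x => by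
      show H (H' (f t x)) = f t₀ (H (H' x))
      rw [hH', hH]⟩
  have hclosed : IsClosed S := by
    rw [← isOpen_compl_iff, isOpen_iff_mem_nhds]
    intro t₁ ht₁
    filter_upwards [hloc t₁] with t ht htS
    obtain ⟨hT, H, hH⟩ := htS
    apply ht₁
    have hT1 := ht.1.1 hT
    obtain ⟨H', hH'⟩ := ht.2 hT1
    refine ⟨hT1, H'.symm.trans H, fun x => ?_⟩
    show H (H'.symm (f t₁ x)) = f t₀ (H (H'.symm x))
    rw [← hH]
    congr 1
    rw [Homeomorph.symm_apply_eq, hH', H'.apply_symm_apply]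
  have hne : S.Nonempty := ⟨t₀, h0, Homeomorph.refl M, fun x => rfl⟩
  have huniv : S = univ := IsClopen.eq_univ ⟨hclosed, hopen⟩ hne
  have : t ∈ S := by rw [huniv]; trivial
  exact this

end manifold

end Pool.Agent.Run7.h491.AC
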