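import Pool.Agent.Run7.h491.AC.Deg
import Pool.Agent.Run7.h491.AC.Sgn

/-!
# Uniqueness of periodic orbits near a hyperbolic periodic orbit of a nearby map
-/

set_option autoImplicit false

open Filter Topology Set Metric

namespace Pool.Agent.Run7.h491.AC

variable {X F : Type*} [MetricSpace X] [NormedAddCommGroup F] [NormedSpace ℝ F] {m : ℕ}

/-- Local data along a cyclic sequence of points `q i` of `X ⊆ F`: a map `Φ` of `X`, local
retractions `r i`, and an invariant splitting of `F` given by projections `P i x`. -/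
structure LS (m : ℕ) (X F : Type*) [MetricSpace X] [NormedAddCommGroup F]
    [NormedSpace ℝ F] where
  e : X → F
  isom : ∀ x y, dist x y = ‖e x - e y‖
  q : ZMod m → X
  Φ : X → X
  cΦ : Continuous Φ
  r : ZMod m → F → X
  P : ZMod m → X → F →L[ℝ] F
  R : ℝ
  ρ₂ : ℝ
  ρ₁ : ℝ
  ρ : ℝ
  ρ_pos : 0 < ρ
  ρ_le : ρ ≤ ρ₁
  ρ₁_le : ρ₁ ≤ ρ₂
  ρ₂_le : ρ₂ ≤ R
  r_cont : ∀ i, ContinuousOn (r i) (ball (e (q i)) R)
  r_id : ∀ i x, dist x (q i) < R → r i (e x) = x
  r_one : ∀ i, ∀ y ∈ ball (e (q i)) ρ, dist (r i y) (q i) < ρ₁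
  r_two : ∀ i, ∀ y ∈ ball (e (q i)) ρ₂, dist (r i y) (q i) < R
  Φ_one : ∀ i x, dist x (q i) < ρ₁ → dist (Φ x) (q (i + 1)) < ρ₂
  smooth : ∀ i, ContDiffOn ℝ 1 (fun y => e (Φ (r i y))) (ball (e (q i)) R)
  P_cont : ∀ i, ContinuousOn (P i) (ball (q i) R)
  P_idem : ∀ i x, dist x (q i) < R → ∀ v, P i x (P i x v) = P i x v
  P_D : ∀ i x, dist x (q i) < R → dist (Φ x) (q (i + 1)) < R → ∀ v,
    P (i + 1) (Φ x) (fderiv ℝ (fun y => e (Φ (r i y))) (e x) v) =
      fderiv ℝ (fun y => e (Φ (r i y))) (e x) (P i x v)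
  D_inj : ∀ i x, dist x (q i) < R → ∀ v, P i x v = v →
    fderiv ℝ (fun y => e (Φ (r i y))) (e x) v = 0 → v = 0
  orbS : ∀ x : ZMod m → X, (∀ i, dist (x i) (q i) < ρ) → (∀ i, x (i + 1) = Φ (x i)) →
    ∀ t ∈ Icc (0 : ℝ) 1, ∀ w : ZMod m → F, (∀ i, P i (x i) (w i) = 0) →
      (∀ i, w (i + 1) = t • fderiv ℝ (fun y => e (Φ (r i y))) (e (x i)) (w i)) → w = 0
  orbU : ∀ x : ZMod m → X, (∀ i, dist (x i) (q i) < ρ) → (∀ i, x (i + 1) = Φ (x i)) →
    ∀ t ∈ Icc (0 : ℝ) 1, ∀ w : ZMod m → F, (∀ i, P i (x i) (w i) = w i) →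
      (∀ i, t • w (i + 1) = fderiv ℝ (fun y => e (Φ (r i y))) (e (x i)) (w i)) → w = 0

namespace LS

variable (S : LS m X F)

/-- the local representation -/
def fh (i : ZMod m) (y : F) : F := S.e (S.Φ (S.r i y))

theorem e_cont : Continuous S.e := by
  rw [Metric.continuous_iff]
  intro b ε hε
  exact ⟨ε, hε, fun a h => by rwa [dist_eq_norm, ← S.isom]⟩

theorem mem_ball_iff {x : X} {i : ZMod m} {t : ℝ} :
    S.e x ∈ ball (S.e (S.q i)) t ↔ dist x (S.q i) < t := by
  rw [Metric.mem_ball, dist_eq_norm, ← S.isom]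

theorem D_cont (i : ZMod m) :
    ContinuousOn (fun x => fderiv ℝ (S.fh i) (S.e x)) (ball (S.q i) S.R) := by
  have h1 : ContinuousOn (fderiv ℝ (S.fh i)) (ball (S.e (S.q i)) S.R) :=
    (S.smooth i).continuousOn_fderiv_of_isOpen isOpen_ball (by norm_num)
  exact h1.comp S.e_cont.continuousOn fun x hx => S.mem_ball_iff.2 hx

variable [NeZero m] [FiniteDimensional ℝ F]

/-- any two periodic orbits near `q` have the same sign -/
theorem sign_eq (x x' : ZMod m → X) (hx : ∀ i, dist (x i) (S.q i) < S.ρ)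
    (hx' : ∀ i, dist (x' i) (S.q i) < S.ρ) (hf : ∀ i, x (i + 1) = S.Φ (x i))
    (hf' : ∀ i, x' (i + 1) = S.Φ (x' i)) :
    0 < (cy (fun _ => ContinuousLinearMap.id ℝ F) fun i => fderiv ℝ (S.fh i) (S.e (x i))).det *
      (cy (fun _ => ContinuousLinearMap.id ℝ F) fun i => fderiv ℝ (S.fh i) (S.e (x' i))).det := by
  have l1 := S.ρ_le
  have l2 := S.ρ₁_le
  have l3 := S.ρ₂_le
  have l0 := S.ρ_pos
  -- the segments
  let y : ZMod m → ℝ → F := fun i s => S.e (x i) + s • (S.e (x' i) - S.e (x i))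
  have hyc : ∀ i, Continuous (y i) := fun i => by fun_prop
  have hym : ∀ i, ∀ s ∈ Icc (0 : ℝ) 1, y i s ∈ ball (S.e (S.q i)) S.ρ := by
    intro i s hs
    exact (convex_ball _ _).add_smul_sub_mem (S.mem_ball_iff.2 (hx i)) (S.mem_ball_iff.2 (hx' i)) hs
  let z : ZMod m → ℝ → X := fun i s => S.r i (y i s)
  have hz1 : ∀ i, ∀ s ∈ Icc (0 : ℝ) 1, dist (z i s) (S.q i) < S.ρ₁ := fun i s hs =>
    S.r_one i _ (hym i s hs)
  have hzc : ∀ i, ContinuousOn (z i) (Icc 0 1) := fun i =>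
    (S.r_cont i).comp (hyc i).continuousOn fun s hs =>
      ball_subset_ball (by linarith) (hym i s hs)
  have hz0 : ∀ i, z i 0 = x i := fun i => by
    have : y i 0 = S.e (x i) := by simp [y]
    show S.r i (y i 0) = x i
    rw [this]
    exact S.r_id i _ (by linarith [hx i])
  have hz1' : ∀ i, z i 1 = x' i := fun i => by
    have : y i 1 = S.e (x' i) := by simp [y]
    show S.r i (y i 1) = x' i
    rw [this]
    exact S.r_id i _ (by linarith [hx' i])
  have hΦz : ∀ i, ∀ s ∈ Icc (0 : ℝ) 1, dist (S.Φ (z i s)) (S.q (i + 1)) < S.ρ₂ := fun i s hs =>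
    S.Φ_one i _ (hz1 i s hs)
  -- the connecting segments
  let u : ZMod m → ℝ → ℝ → F := fun i s t =>
    S.e (S.Φ (z i s)) + t • (S.e (z (i + 1) s) - S.e (S.Φ (z i s)))
  have hum : ∀ i, ∀ s ∈ Icc (0 : ℝ) 1, ∀ t ∈ Icc (0 : ℝ) 1,
      u i s t ∈ ball (S.e (S.q (i + 1))) S.ρ₂ := by
    intro i s hs t ht
    exact (convex_ball _ _).add_smul_sub_mem (S.mem_ball_iff.2 (hΦz i s hs))
      (S.mem_ball_iff.2 ((hz1 (i + 1) s hs).trans_le l2)) ht
  let g : ZMod m → ℝ → ℝ → X := fun i s t => S.r (i + 1) (u i s t)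
  have hgm : ∀ i, ∀ s ∈ Icc (0 : ℝ) 1, ∀ t ∈ Icc (0 : ℝ) 1,
      dist (g i s t) (S.q (i + 1)) < S.R := fun i s hs t ht => S.r_two _ _ (hum i s hs t ht)
  have hg0 : ∀ i, ∀ s ∈ Icc (0 : ℝ) 1, g i s 0 = S.Φ (z i s) := by
    intro i s hs
    have : u i s 0 = S.e (S.Φ (z i s)) := by simp [u]
    show S.r (i + 1) (u i s 0) = _
    rw [this]
    exact S.r_id _ _ ((hΦz i s hs).trans_le l3)
  have hg1 : ∀ i, ∀ s ∈ Icc (0 : ℝ) 1, g i s 1 = z (i + 1) s := by
    intro i s hs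
    have : u i s 1 = S.e (z (i + 1) s) := by simp [u]
    show S.r (i + 1) (u i s 1) = _
    rw [this]
    exact S.r_id _ _ ((hz1 (i + 1) s hs).trans_le (l2.trans l3))
  have huc : ∀ i, ContinuousOn (fun p : ℝ × ℝ => u i p.1 p.2) (Icc 0 1 ×ˢ Icc 0 1) := by
    intro i
    have k1 : ContinuousOn (fun p : ℝ × ℝ => z i p.1) (Icc 0 1 ×ˢ Icc 0 1) :=
      (hzc i).comp continuousOn_fst fun p hp => hp.1
    have k2 : ContinuousOn (fun p : ℝ × ℝ => z (i + 1) p.1) (Icc 0 1 ×ˢ Icc 0 1) :=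
      (hzc (i + 1)).comp continuousOn_fst fun p hp => hp.1
    have k3 := (S.e_cont.comp S.cΦ).comp_continuousOn k1
    exact k3.add (continuousOn_snd.smul ((S.e_cont.comp_continuousOn k2).sub k3))
  have hgc : ∀ i, ContinuousOn (fun p : ℝ × ℝ => g i p.1 p.2) (Icc 0 1 ×ˢ Icc 0 1) := fun i =>
    (S.r_cont (i + 1)).comp (huc i) fun p hp =>
      ball_subset_ball l3 (hum i p.1 hp.1 p.2 hp.2)
  have hRc : ∀ i, ContinuousOn (fun p : ℝ × ℝ => S.P (i + 1) (g i p.1 p.2))
      (Icc 0 1 ×ˢ Icc 0 1) := fun i =>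
    (S.P_cont (i + 1)).comp (hgc i) fun p hp => hgm i p.1 hp.1 p.2 hp.2
  have hC := fun i => exists_conn (R := fun s t => S.P (i + 1) (g i s t)) (hRc i)
    fun s hs t ht v => S.P_idem _ _ (hgm i s hs t ht) v
  choose C hC1 hC2 hC3 hC4 using hC
  -- the operators along the path
  let D : ZMod m → ℝ → F →L[ℝ] F := fun i s => fderiv ℝ (S.fh i) (S.e (z i s))
  have hDc : ∀ i, ContinuousOn (D i) (Icc 0 1) := fun i =>
    (S.D_cont i).comp (hzc i) fun s hs => (hz1 i s hs).trans_le (l2.trans l3)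
  have hPc : ∀ i, ContinuousOn (fun s => S.P i (z i s)) (Icc 0 1) := fun i =>
    (S.P_cont i).comp (hzc i) fun s hs => (hz1 i s hs).trans_le (l2.trans l3)
  have hPD : ∀ i, ∀ s ∈ Icc (0 : ℝ) 1, ∀ v,
      S.P (i + 1) (S.Φ (z i s)) (D i s v) = D i s (S.P i (z i s) v) := fun i s hs v =>
    S.P_D i _ ((hz1 i s hs).trans_le (l2.trans l3)) ((hΦz i s hs).trans_le l3) v
  have hPP : ∀ i, ∀ s ∈ Icc (0 : ℝ) 1, ∀ v,
      S.P i (z i s) (S.P i (z i s) v) = S.P i (z i s) v := fun i s hs v =>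
    S.P_idem i _ ((hz1 i s hs).trans_le (l2.trans l3)) v
  have key := det_split (m := m) (P := fun i s => S.P i (z i s))
    (B := fun i s => (C i s).comp ((D i s).comp (S.P i (z i s)))) hPc
    (fun i => (hC1 i).clm_comp ((hDc i).clm_comp (hPc i))) hPP
    (fun i s hs v => by
      have h1 := hC2 i s hs (D i s (S.P i (z i s) v))
      simp only [hg1 i s hs] at h1
      exact h1)
    (fun i s hs v => by
      simp only [ContinuousLinearMap.comp_apply, hPP i s hs])
    (fun i s hs v hv h0 => by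
      simp only [ContinuousLinearMap.comp_apply] at h0
      rw [hv] at h0
      have h1 : D i s v = 0 := by
        apply hC3 i s hs _ _ h0
        simp only [hg0 i s hs]
        rw [hPD i s hs, hv]
      exact S.D_inj i _ ((hz1 i s hs).trans_le (l2.trans l3)) v hv h1)
  -- the end points
  have hend : ∀ s ∈ Icc (0 : ℝ) 1, ∀ w : ZMod m → X, (∀ i, z i s = w i) →
      (∀ i, dist (w i) (S.q i) < S.ρ) → (∀ i, w (i + 1) = S.Φ (w i)) →
      0 < (cy (fun i => ContinuousLinearMap.id ℝ F - S.P (i + 1) (z (i + 1) s))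
        (fun i => (C i s).comp ((D i s).comp (S.P i (z i s))))).det *
        (cy (fun _ => ContinuousLinearMap.id ℝ F) fun i =>
          fderiv ℝ (S.fh i) (S.e (w i))).det := by
    intro s hs w hw hwρ hwf
    have hCs : ∀ i, C i s = S.P (i + 1) (w (i + 1)) := by
      intro i
      have hgt : ∀ t, g i s t = w (i + 1) := by
        intro t
        have h1 : u i s t = S.e (w (i + 1)) := by
          show S.e (S.Φ (z i s)) + t • (S.e (z (i + 1) s) - S.e (S.Φ (z i s))) = _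
          rw [hw i, hw (i + 1), ← hwf i, sub_self, smul_zero, add_zero]
        show S.r (i + 1) (u i s t) = _
        rw [h1]
        exact S.r_id _ _ (by linarith [hwρ (i + 1)])
      have h2 := hC4 i s hs (fun t _ => by simp only [hgt])
      rw [h2]
      simp only [hgt]
    have hDs : ∀ i, D i s = fderiv ℝ (S.fh i) (S.e (w i)) := fun i => by
      show fderiv ℝ (S.fh i) (S.e (z i s)) = _
      rw [hw]
    have hlt : ∀ i, dist (w i) (S.q i) < S.R := fun i => by linarith [hwρ i]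
    have hPDw : ∀ i v, S.P (i + 1) (w (i + 1)) (fderiv ℝ (S.fh i) (S.e (w i)) v) =
        fderiv ℝ (S.fh i) (S.e (w i)) (S.P i (w i) v) := by
      intro i v
      have := S.P_D i (w i) (hlt i) (by rw [← hwf]; exact hlt (i + 1)) v
      rw [← hwf] at this
      exact this
    have h3 := det_end (P := fun i => S.P i (w i)) (D := fun i => fderiv ℝ (S.fh i) (S.e (w i)))
      (fun i v => S.P_idem i _ (hlt i) v) hPDw (S.orbS w hwρ hwf) (S.orbU w hwρ hwf)
    have e1 : (fun i => ContinuousLinearMap.id ℝ F - S.P (i + 1) (z (i + 1) s)) =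
        fun i => ContinuousLinearMap.id ℝ F - S.P (i + 1) (w (i + 1)) := by
      funext i; rw [hw]
    have e2 : (fun i => (C i s).comp ((D i s).comp (S.P i (z i s)))) =
        fun i => (fderiv ℝ (S.fh i) (S.e (w i))).comp (S.P i (w i)) := by
      funext i
      ext v
      rw [hCs, hDs, hw]
      simp only [ContinuousLinearMap.comp_apply]
      rw [hPDw, S.P_idem i _ (hlt i)]
    rw [e1, e2]
    exact h3
  have k0 := hend 0 ⟨le_rfl, zero_le_one⟩ x hz0 hx hf
  have k1 := hend 1 ⟨zero_le_one, le_rfl⟩ x' hz1' hx' hf'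
  set α := (cy (fun i => ContinuousLinearMap.id ℝ F - S.P (i + 1) (z (i + 1) 0))
        (fun i => (C i 0).comp ((D i 0).comp (S.P i (z i 0))))).det with hα
  set β := (cy (fun i => ContinuousLinearMap.id ℝ F - S.P (i + 1) (z (i + 1) 1))
        (fun i => (C i 1).comp ((D i 1).comp (S.P i (z i 1))))).det with hβ
  have hk : 0 < α * β := key
  set a := (cy (fun _ => ContinuousLinearMap.id ℝ F) fun i =>
    fderiv ℝ (S.fh i) (S.e (x i))).det
  set b := (cy (fun _ => ContinuousLinearMap.id ℝ F) fun i =>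
    fderiv ℝ (S.fh i) (S.e (x' i))).det
  have h1 : 0 < (α * β) * (a * b) := by
    have := mul_pos k0 k1
    linarith [this, show (α * β) * (a * b) = (α * a) * (β * b) by ring]
  exact pos_of_mul_pos_right h1 hk.le

/-- There is exactly one periodic orbit near `q`. -/
theorem unique_orbit (A : ZMod m → F →L[ℝ] F) (κ δ η : ℝ) (hκ : 0 ≤ κ) (hη : κ * η ≤ 1 / 4)
    (hη0 : 0 ≤ η) (hδ : κ * δ < S.ρ / 8)
    (h2 : ∀ v : ZMod m → F, ‖v‖ ≤ κ * ‖cy (fun _ => ContinuousLinearMap.id ℝ F) A v‖)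
    (h3 : ∀ i, ∀ y ∈ ball (S.e (S.q i)) S.ρ,
      ‖S.fh i y - S.e (S.q (i + 1)) - A i (y - S.e (S.q i))‖ ≤ δ + η * ‖y - S.e (S.q i)‖) :
    ∃! x : ZMod m → X, (∀ i, dist (x i) (S.q i) < S.ρ) ∧ ∀ i, x (i + 1) = S.Φ (x i) := by
  have l1 := S.ρ_le
  have l2 := S.ρ₁_le
  have l3 := S.ρ₂_le
  have l0 := S.ρ_pos
  let a : ZMod m → F := fun i => S.e (S.q i)
  let Ψ : (ZMod m → F) → (ZMod m → F) := fun z i => a (i + 1) + z (i + 1) - S.fh i (a i + z i)
  have hmem : ∀ z ∈ ball (0 : ZMod m → F) S.ρ, ∀ i, a i + z i ∈ ball (a i) S.ρ := by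
    intro z hz i
    rw [mem_ball_zero_iff] at hz
    rw [Metric.mem_ball, dist_eq_norm, add_sub_cancel_left]
    exact (norm_le_pi_norm z i).trans_lt hz
  have hfd : ∀ z ∈ ball (0 : ZMod m → F) S.ρ, ∀ i, ContDiffAt ℝ 1 (S.fh i) (a i + z i) := by
    intro z hz i
    exact (S.smooth i).contDiffAt (isOpen_ball.mem_nhds
      (ball_subset_ball (by linarith) (hmem z hz i)))
  have hΨ1 : ContDiffOn ℝ 1 Ψ (ball 0 S.ρ) := by
    intro z hz
    apply ContDiffAt.contDiffWithinAt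
    rw [contDiffAt_pi]
    intro i
    have k1 : ContDiff ℝ 1 (fun z : ZMod m → F => a (i + 1) + z (i + 1)) := by fun_prop
    have k2 : ContDiff ℝ 1 (fun z : ZMod m → F => a i + z i) := by fun_prop
    have k3 : ContDiffAt ℝ 1 (fun z : ZMod m → F => S.fh i (a i + z i)) z :=
      ContDiffAt.comp (g := S.fh i) (f := fun z : ZMod m → F => a i + z i) z (hfd z hz i)
        k2.contDiffAt
    exact k1.contDiffAt.sub k3
  have hΨd : ∀ z ∈ ball (0 : ZMod m → F) S.ρ, fderiv ℝ Ψ z =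
      cy (fun _ => ContinuousLinearMap.id ℝ F) fun i => fderiv ℝ (S.fh i) (a i + z i) := by
    intro z hz
    apply HasFDerivAt.fderiv
    rw [hasFDerivAt_pi']
    intro i
    have k1 : HasFDerivAt (fun z : ZMod m → F => a (i + 1) + z (i + 1))
        (ContinuousLinearMap.proj (R := ℝ) (φ := fun _ : ZMod m => F) (i + 1)) z :=
      (ContinuousLinearMap.proj (R := ℝ) (φ := fun _ : ZMod m => F) (i + 1)).hasFDerivAt.const_add _
    have k2 : HasFDerivAt (fun z : ZMod m → F => a i + z i)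
        (ContinuousLinearMap.proj (R := ℝ) (φ := fun _ : ZMod m => F) i) z :=
      (ContinuousLinearMap.proj (R := ℝ) (φ := fun _ : ZMod m => F) i).hasFDerivAt.const_add _
    have k3 := ((hfd z hz i).differentiableAt (by norm_num)).hasFDerivAt.comp z k2
    exact k1.sub k3
  have horb : ∀ z ∈ ball (0 : ZMod m → F) S.ρ, Ψ z = 0 → ∃ x : ZMod m → X,
      (∀ i, S.e (x i) = a i + z i) ∧ (∀ i, dist (x i) (S.q i) < S.ρ) ∧
        ∀ i, x (i + 1) = S.Φ (x i) := by
    intro z hz h0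
    have k1 : ∀ i, a (i + 1) + z (i + 1) = S.e (S.Φ (S.r i (a i + z i))) := fun i =>
      sub_eq_zero.1 (congrFun h0 i)
    have k2 : ∀ i, S.e (S.Φ (S.r (i - 1) (a (i - 1) + z (i - 1)))) = a i + z i := fun i => by
      have := k1 (i - 1)
      rw [sub_add_cancel] at this
      exact this.symm
    have k3 : ∀ i, dist (S.Φ (S.r (i - 1) (a (i - 1) + z (i - 1)))) (S.q i) < S.ρ := fun i => by
      rw [← S.mem_ball_iff, k2]
      exact hmem z hz i
    refine ⟨fun i => S.Φ (S.r (i - 1) (a (i - 1) + z (i - 1))), k2, k3, fun i => ?_⟩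
    have k4 := S.r_id i _ ((k3 i).trans_le (by linarith))
    rw [k2 i] at k4
    show S.Φ (S.r (i + 1 - 1) (a (i + 1 - 1) + z (i + 1 - 1))) = _
    rw [add_sub_cancel_right, k4]
  obtain ⟨z, ⟨hz, hz0⟩, huni⟩ := unique_zero Ψ (cy (fun _ => ContinuousLinearMap.id ℝ F) A)
    S.ρ κ δ η l0 hκ hη hδ hΨ1 h2 (by
      intro z hz
      have hδ0 : 0 ≤ δ + η * ‖z‖ := by
        have := (norm_nonneg _).trans (h3 0 (a 0) (mem_ball_self l0))
        rw [sub_self, norm_zero, mul_zero, add_zero] at this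
        positivity
      rw [pi_norm_le_iff_of_nonneg hδ0]
      intro i
      have k1 := h3 i _ (hmem z hz i)
      have e1 : (Ψ z - (cy (fun _ => ContinuousLinearMap.id ℝ F) A) z) i =
          -(S.fh i (a i + z i) - S.e (S.q (i + 1)) - A i (a i + z i - S.e (S.q i))) := by
        have : a i + z i - S.e (S.q i) = z i := add_sub_cancel_left _ _
        rw [this]
        show a (i + 1) + z (i + 1) - S.fh i (a i + z i) -
          (ContinuousLinearMap.id ℝ F (z (i + 1)) - A i (z i)) = _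
        rw [ContinuousLinearMap.id_apply]
        show S.e (S.q (i + 1)) + z (i + 1) - S.fh i (a i + z i) - (z (i + 1) - A i (z i)) = _
        abel
      rw [e1, norm_neg]
      refine k1.trans ?_
      have : a i + z i - S.e (S.q i) = z i := add_sub_cancel_left _ _
      rw [this]
      have := mul_le_mul_of_nonneg_left (norm_le_pi_norm z i) hη0
      linarith)
    (by
      intro z hz z' hz' h0 h0'
      obtain ⟨x, x1, x2, x3⟩ := horb z hz h0
      obtain ⟨x', y1, y2, y3⟩ := horb z' hz' h0'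
      rw [hΨd z hz, hΨd z' hz']
      have := S.sign_eq x x' x2 y2 x3 y3
      simp only [x1, y1] at this
      exact this)
  obtain ⟨x, x1, x2, x3⟩ := horb z hz hz0
  refine ⟨x, ⟨x2, x3⟩, ?_⟩
  rintro x' ⟨y2, y3⟩
  have h5 := huni (fun i => S.e (x' i) - a i) ⟨?_, ?_⟩
  · funext i
    have h6 := congrFun h5 i
    have h7 : S.e (x' i) = S.e (x i) := by
      rw [x1 i, ← h6]
      show S.e (x' i) = a i + (S.e (x' i) - a i)
      abel
    have h8 := S.isom (x' i) (x i)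
    rw [h7, sub_self, norm_zero] at h8
    exact dist_eq_zero.1 h8
  · rw [mem_ball_zero_iff, pi_norm_lt_iff l0]
    intro i
    show ‖S.e (x' i) - S.e (S.q i)‖ < S.ρ
    rw [← S.isom]
    exact y2 i
  · funext i
    show a (i + 1) + (S.e (x' (i + 1)) - a (i + 1)) - S.e (S.Φ (S.r i (a i + (S.e (x' i) - a i)))) = 0
    rw [add_sub_cancel, add_sub_cancel, S.r_id i _ (by linarith [y2 i]), y3 i, sub_self]

end LS

end Pool.Agent.Run7.h491.AC
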