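import Pool.Agent.Run7.h491.AC.Kap
import Pool.Agent.Run7.h491.AC.Path

/-!
# Unique periodic orbits near the periodic orbits of a `C⁰`-close Anosov diffeomorphism
-/

set_option autoImplicit false
set_option linter.unusedSectionVars false

open scoped Manifold ContDiff Topology
open Set Filter Metric

namespace Pool.Agent.Run7.h491.AC

open Pool.Agent.H721R2

theorem cyc_iter {M : Type*} {m : ℕ} {Φ : M → M} {x : ZMod m → M}
    (hx : ∀ i, x (i + 1) = Φ (x i)) (i : ZMod m) (k : ℕ) : x (i + k) = Φ^[k] (x i) := by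
  induction k with
  | zero => simp
  | succ k ih =>
    rw [Function.iterate_succ_apply', ← ih, ← hx]
    congr 1
    push_cast
    ring

variable {E₀ : Type*} [NormedAddCommGroup E₀] [NormedSpace ℝ E₀] [FiniteDimensional ℝ E₀]
  {M : Type*} [MetricSpace M] [ChartedSpace E₀ M] [IsManifold 𝓘(ℝ, E₀) 1 M]
  {F : Type*} [NormedAddCommGroup F] [NormedSpace ℝ F] [FiniteDimensional ℝ F]

theorem exists_small {C a : ℝ} (ha0 : 0 < a) (ha1 : a < 1) {k : ℕ} (hk : 1 ≤ k) :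
    ∃ L : ℕ, C * a ^ (k * L) < 1 := by
  have h1 : a ^ k < 1 := pow_lt_one₀ ha0.le ha1 (by omega)
  have h2 : Tendsto (fun L : ℕ => C * (a ^ k) ^ L) atTop (𝓝 (C * 0)) :=
    (tendsto_pow_atTop_nhds_zero_of_lt_one (by positivity) h1).const_mul C
  rw [mul_zero] at h2
  obtain ⟨L, hL⟩ := ((tendsto_order.1 h2).2 1 one_pos).exists
  exact ⟨L, by rwa [pow_mul]⟩

theorem orbS {e : M → F}
    (hinj : ∀ x, Function.Injective (dm E₀ e x))
    {f : M ≃ₜ M} {Es Eu : M → Submodule ℝ E₀} {C a b Ls Lu : ℝ}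
    (h : EAnosov e f Es Eu C a b Ls Lu) {N : ℕ} (hN : 1 ≤ N) {m : ℕ} [NeZero m]
    (x : ZMod m → M) (hx : ∀ i, x (i + 1) = f^[N] (x i)) (t : ℝ) (ht : t ∈ Icc (0 : ℝ) 1)
    (om : ZMod m → E₀) (hom : ∀ i, om i ∈ Es (x i))
    (hnext : ∀ i, om (i + 1) = t • dg E₀ (f^[N]) (x i) (om i)) (i : ZMod m) : om i = 0 := by
  have hsm := iter_smooth f h.smooth N
  have hm : 1 ≤ m := Nat.one_le_iff_ne_zero.2 (NeZero.ne m)
  obtain ⟨L, hL⟩ := exists_small (C := C) h.a_pos h.a_lt (k := N * m)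
    (Nat.one_le_iff_ne_zero.2 (by positivity))
  have h1 : ∀ k : ℕ, om (i + k) = t ^ k • dg E₀ (f^[N * k]) (x i) (om i) := by
    intro k
    induction k with
    | zero =>
      have : dg E₀ (f^[N * 0]) (x i) (om i) = om i := by
        show mfderiv 𝓘(ℝ, E₀) 𝓘(ℝ, E₀) id (x i) (om i) = om i
        rw [mfderiv_id]; rfl
      rw [this]; simp
    | succ k ih =>
      have e1 : i + ((k + 1 : ℕ) : ZMod m) = (i + k) + 1 := by push_cast; ring
      rw [e1, hnext, ih, map_smul, smul_smul, ← pow_succ', cyc_iter hx, ← Function.iterate_mul,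
        ← dg_comp (f^[N * k]) (f^[N]) (iter_smooth f h.smooth _) hsm, ← Function.iterate_add]
      congr 3
      ring
  have h2 := h1 (m * L)
  have e2 : i + ((m * L : ℕ) : ZMod m) = i := by
    push_cast
    rw [ZMod.natCast_self, zero_mul, add_zero]
  rw [e2] at h2
  have h3 := h.hS (N * (m * L)) (x i) (om i) (hom i)
  have e3 : f^[N * (m * L)] (x i) = x i := by
    rw [Function.iterate_mul, ← cyc_iter hx, e2]
  rw [e3] at h3
  have h4 : ‖dm E₀ e (x i) (om i)‖ ≤ C * a ^ (N * (m * L)) * ‖dm E₀ e (x i) (om i)‖ := by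
    calc ‖dm E₀ e (x i) (om i)‖ = ‖dm E₀ e (x i) (t ^ (m * L) •
          dg E₀ (f^[N * (m * L)]) (x i) (om i))‖ := by rw [← h2]
      _ = |t ^ (m * L)| * ‖dm E₀ e (x i) (dg E₀ (f^[N * (m * L)]) (x i) (om i))‖ := by
          rw [map_smul, norm_smul, Real.norm_eq_abs]
      _ ≤ 1 * ‖dm E₀ e (x i) (dg E₀ (f^[N * (m * L)]) (x i) (om i))‖ := by
          apply mul_le_mul_of_nonneg_right _ (norm_nonneg _)
          rw [abs_of_nonneg (pow_nonneg ht.1 _)]
          exact pow_le_one₀ ht.1 ht.2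
      _ ≤ _ := by rw [one_mul]; exact h3
  have e4 : N * (m * L) = N * m * L := by ring
  rw [e4] at h4
  have h5 : ‖dm E₀ e (x i) (om i)‖ = 0 := by
    by_contra hne
    have h6 : 0 < ‖dm E₀ e (x i) (om i)‖ := lt_of_le_of_ne (norm_nonneg _) (Ne.symm hne)
    nlinarith
  apply hinj (x i)
  rw [map_zero]
  exact norm_eq_zero.1 h5

theorem orbU {e : M → F}
    (hinj : ∀ x, Function.Injective (dm E₀ e x))
    {f : M ≃ₜ M} {Es Eu : M → Submodule ℝ E₀} {C a b Ls Lu : ℝ}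
    (h : EAnosov e f Es Eu C a b Ls Lu) {N : ℕ} (hN : 1 ≤ N) {m : ℕ} [NeZero m]
    (x : ZMod m → M) (hx : ∀ i, x (i + 1) = f^[N] (x i)) (t : ℝ) (ht : t ∈ Icc (0 : ℝ) 1)
    (om : ZMod m → E₀) (hom : ∀ i, om i ∈ Eu (x i))
    (hnext : ∀ i, t • om (i + 1) = dg E₀ (f^[N]) (x i) (om i)) (i : ZMod m) : om i = 0 := by
  have hsm := iter_smooth f h.smooth N
  have hm : 1 ≤ m := Nat.one_le_iff_ne_zero.2 (NeZero.ne m)
  obtain ⟨L, hL⟩ := exists_small (C := C) h.b_pos h.b_lt (k := N * m)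
    (Nat.one_le_iff_ne_zero.2 (by positivity))
  have h1 : ∀ k : ℕ, t ^ k • om (i + k) = dg E₀ (f^[N * k]) (x i) (om i) := by
    intro k
    induction k with
    | zero =>
      have : dg E₀ (f^[N * 0]) (x i) (om i) = om i := by
        show mfderiv 𝓘(ℝ, E₀) 𝓘(ℝ, E₀) id (x i) (om i) = om i
        rw [mfderiv_id]; rfl
      rw [this]; simp
    | succ k ih =>
      have e1 : i + ((k + 1 : ℕ) : ZMod m) = (i + k) + 1 := by push_cast; ring
      have e5 : f^[N * (k + 1)] = f^[N] ∘ f^[N * k] := by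
        rw [← Function.iterate_add]
        congr 1
        ring
      rw [e1, pow_succ, ← smul_smul, hnext, ← map_smul, ih, cyc_iter hx, ← Function.iterate_mul,
        ← dg_comp (f^[N * k]) (f^[N]) (iter_smooth f h.smooth _) hsm, e5]
  have h2 := h1 (m * L)
  have e2 : i + ((m * L : ℕ) : ZMod m) = i := by
    push_cast
    rw [ZMod.natCast_self, zero_mul, add_zero]
  rw [e2] at h2
  have e3 : f^[N * (m * L)] (x i) = x i := by
    rw [Function.iterate_mul, ← cyc_iter hx, e2]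
  have h3 := h.hU' (N * (m * L)) (f^[N * (m * L)] (x i)) _ (h.mapU (N * (m * L)) (x i) _ (hom i))
  rw [dg_inv (f^[N * (m * L)]) (f.symm^[N * (m * L)]) (iter_smooth f h.smooth _)
    (iter_smooth _ h.smooth' _) (iter_left f _), iter_left, e3, ← h2] at h3
  have h4 : ‖dm E₀ e (x i) (om i)‖ ≤ C * b ^ (N * (m * L)) * ‖dm E₀ e (x i) (om i)‖ := by
    refine h3.trans (mul_le_mul_of_nonneg_left ?_ (by
      have := h.C_pos
      have := h.b_pos
      positivity))
    rw [map_smul, norm_smul, Real.norm_eq_abs]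
    have h6 : |t ^ (m * L)| ≤ 1 := by
      rw [abs_of_nonneg (pow_nonneg ht.1 _)]
      exact pow_le_one₀ ht.1 ht.2
    have := mul_le_mul_of_nonneg_right h6 (norm_nonneg (dm E₀ e (x i) (om i)))
    linarith
  have e4 : N * (m * L) = N * m * L := by ring
  rw [e4] at h4
  have h5 : ‖dm E₀ e (x i) (om i)‖ = 0 := by
    by_contra hne
    have h6 : 0 < ‖dm E₀ e (x i) (om i)‖ := lt_of_le_of_ne (norm_nonneg _) (Ne.symm hne)
    nlinarith
  apply hinj (x i)
  rw [map_zero]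
  exact norm_eq_zero.1 h5

/-- the local system of `f^[N]` along a pseudo-orbit `q` -/
theorem exists_LS [CompactSpace M] {e : M → F} (hiso : ∀ x y, dist x y = ‖e x - e y‖)
    (he : ContMDiff 𝓘(ℝ, E₀) 𝓘(ℝ, F) 1 e) (hinj : ∀ x, Function.Injective (dm E₀ e x))
    {R₀ : ℝ} {r : M → F → M} {J : M → M → F →L[ℝ] E₀} (hU : UR e R₀ r J)
    {f : M ≃ₜ M} {Es Eu : M → Submodule ℝ E₀} {C a b Ls Lu : ℝ}
    (h : EAnosov e f Es Eu C a b Ls Lu) {N : ℕ} (hN : 1 ≤ N) {m : ℕ} [NeZero m]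
    (q : ZMod m → M) {R ρ₂ ρ₁ ρ : ℝ} (hR : R ≤ R₀) (ρ_pos : 0 < ρ) (ρ_le : ρ ≤ ρ₁)
    (ρ₁_le : ρ₁ ≤ ρ₂) (ρ₂_le : ρ₂ ≤ R)
    (r_one : ∀ i, ∀ y ∈ ball (e (q i)) ρ, dist (r (q i) y) (q i) < ρ₁)
    (r_two : ∀ i, ∀ y ∈ ball (e (q i)) ρ₂, dist (r (q i) y) (q i) < R)
    (Φ_one : ∀ i x, dist x (q i) < ρ₁ → dist (f^[N] x) (q (i + 1)) < ρ₂) :
    ∃ S : LS m M F, S.e = e ∧ S.q = q ∧ S.Φ = f^[N] ∧ S.r = (fun i => r (q i)) ∧ S.ρ = ρ := by
  have hsm := iter_smooth f h.smooth N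
  choose pu hpu using fun x => exists_pu (Es x) (Eu x) (h.compl x)
  have hball : ∀ i, ball (e (q i)) R ⊆ ball (e (q i)) R₀ := fun i => ball_subset_ball hR
  have hfd : ∀ i x, dist x (q i) < R → ∀ w, fderiv ℝ (fun y => e (f^[N] (r (q i) y))) (e x) w =
      dm E₀ e (f^[N] x) (dg E₀ (f^[N]) x (J (q i) x w)) := fun i x hx w =>
    fd_rep he hU _ hsm _ _ (hx.trans_le hR) w
  have hJ : ∀ i x, dist x (q i) < R → ∀ v, J (q i) x (dm E₀ e x v) = v := fun i x hx =>
    hU.J_id _ _ (hx.trans_le hR)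
  have hρR : ρ ≤ R := ρ_le.trans (ρ₁_le.trans ρ₂_le)
  refine ⟨{
    e := e
    isom := hiso
    q := q
    Φ := f^[N]
    cΦ := f.continuous.iterate N
    r := fun i => r (q i)
    P := fun i x => (dm E₀ e x).comp ((pu x).comp (J (q i) x))
    R := R
    ρ₂ := ρ₂
    ρ₁ := ρ₁
    ρ := ρ
    ρ_pos := ρ_pos
    ρ_le := ρ_le
    ρ₁_le := ρ₁_le
    ρ₂_le := ρ₂_le
    r_cont := fun i => (hU.r_cont (q i)).mono (hball i)
    r_id := fun i x hx => hU.r_id _ _ (hx.trans_le hR)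
    r_one := r_one
    r_two := r_two
    Φ_one := Φ_one
    smooth := fun i => (hU.smooth (q i) (e ∘ f^[N]) (he.comp hsm)).mono (hball i)
    P_cont := fun i => (P_cont hiso he hinj h pu hpu hU (q i)).mono (ball_subset_ball hR)
    P_idem := ?_
    P_D := ?_
    D_inj := ?_
    orbS := ?_
    orbU := ?_ }, rfl, rfl, rfl, rfl, rfl⟩
  · intro i x hx v
    simp only [ContinuousLinearMap.comp_apply]
    rw [hJ i x hx, (hpu x).1 _ ((hpu x).2.2.1 _)]
  · intro i x hx hx' v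
    rw [hfd i x hx, hfd i x hx]
    simp only [ContinuousLinearMap.comp_apply]
    rw [hJ (i + 1) _ hx', hJ i x hx]
    congr 1
    set z := J (q i) x v
    have h1 : z = (z - pu x z) + pu x z := by abel
    conv_lhs => rw [h1]
    rw [map_add, map_add, (hpu _).2.1 _ (h.mapS N x _ ((hpu x).2.2.2 z)),
      (hpu _).1 _ (h.mapU N x _ ((hpu x).2.2.1 z)), zero_add]
  · intro i x hx v hv h0
    rw [hfd i x hx] at h0
    simp only [ContinuousLinearMap.comp_apply] at hv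
    have h1 : dg E₀ (f^[N]) x (J (q i) x v) = 0 := by
      apply hinj
      rw [h0, map_zero]
    have h2 : J (q i) x v = 0 := by
      have := dg_inv (f^[N]) (f.symm^[N]) hsm (iter_smooth _ h.smooth' N) (iter_left f N) x
        (J (q i) x v)
      rw [h1, map_zero] at this
      exact this.symm
    rw [← hv, h2, map_zero, map_zero]
  · intro x hxρ hx t ht w hw hnext
    have hxR : ∀ i, dist (x i) (q i) < R := fun i => (hxρ i).trans_le hρR
    have h1 : ∀ i, w (i + 1) = dm E₀ e (x (i + 1))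
        (t • dg E₀ (f^[N]) (x i) (J (q i) (x i) (w i))) := fun i => by
      rw [hnext i, hfd i _ (hxR i), map_smul, hx]
    have h2 : ∀ i, J (q i) (x i) (w i) ∈ Es (x i) := fun i => by
      have h3 := hw i
      simp only [ContinuousLinearMap.comp_apply] at h3
      have h4 : pu (x i) (J (q i) (x i) (w i)) = 0 := by
        apply hinj (x i)
        rw [h3, map_zero]
      have h5 := (hpu (x i)).2.2.2 (J (q i) (x i) (w i))
      rwa [h4, sub_zero] at h5
    have h6 := orbS hinj h hN x hx t ht (fun i => J (q i) (x i) (w i)) h2 (fun i => by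
      show J (q (i + 1)) (x (i + 1)) (w (i + 1)) = _
      rw [h1 i, hJ _ _ (hxR _)])
    funext i
    have h7 := h1 (i - 1)
    rw [sub_add_cancel] at h7
    have h8 : J (q (i - 1)) (x (i - 1)) (w (i - 1)) = 0 := h6 (i - 1)
    rw [h7, h8, map_zero, smul_zero, map_zero]
    rfl
  · intro x hxρ hx t ht w hw hnext
    have hxR : ∀ i, dist (x i) (q i) < R := fun i => (hxρ i).trans_le hρR
    have h1 : ∀ i, w i = dm E₀ e (x i) (pu (x i) (J (q i) (x i) (w i))) := fun i => by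
      have h3 := hw i
      simp only [ContinuousLinearMap.comp_apply] at h3
      exact h3.symm
    have h2 : ∀ i, J (q i) (x i) (w i) = pu (x i) (J (q i) (x i) (w i)) := fun i => by
      conv_lhs => rw [h1 i]
      exact hJ _ _ (hxR i) _
    have h6 := orbU hinj h hN x hx t ht (fun i => J (q i) (x i) (w i)) (fun i => by
      show J (q i) (x i) (w i) ∈ Eu (x i)
      rw [h2 i]
      exact (hpu (x i)).2.2.1 _) (fun i => by
      show t • J (q (i + 1)) (x (i + 1)) (w (i + 1)) = _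
      have h7 := congrArg (J (q (i + 1)) (x (i + 1))) (hnext i)
      rw [map_smul, hfd i _ (hxR i), ← hx, hJ _ _ (hxR _)] at h7
      exact h7)
    funext i
    have h8 : J (q i) (x i) (w i) = 0 := h6 i
    rw [h1 i, h8, map_zero, map_zero]
    rfl

/-- **Unique periodic orbits.**  If `g` is Anosov there is `N` such that for every Anosov `f` with
`f^N` uniformly close to `g^N`, each periodic orbit of `g^N` has exactly one periodic orbit of
`f^N` of the same period near it. -/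
theorem near_unique [CompactSpace M] {e : M → F} (hiso : ∀ x y, dist x y = ‖e x - e y‖)
    (he : ContMDiff 𝓘(ℝ, E₀) 𝓘(ℝ, F) 1 e) (hinj : ∀ x, Function.Injective (dm E₀ e x))
    {g : M ≃ₜ M} {Es Eu : M → Submodule ℝ E₀} {C a b Ls Lu : ℝ}
    (h : EAnosov e g Es Eu C a b Ls Lu) :
    ∃ N ≥ 1, ∀ ρ' > 0, ∃ ρ > 0, ρ ≤ ρ' ∧ ∃ δ > 0, ∀ (f : M ≃ₜ M)
      (Es' Eu' : M → Submodule ℝ E₀) (C' a' b' Ls' Lu' : ℝ),
      EAnosov e f Es' Eu' C' a' b' Ls' Lu' → (∀ x, dist (f^[N] x) (g^[N] x) ≤ δ) →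
      ∀ (m : ℕ) [NeZero m] (q : ZMod m → M), (∀ i, q (i + 1) = g^[N] (q i)) →
        ∃! x : ZMod m → M, (∀ i, dist (x i) (q i) < ρ) ∧ ∀ i, x (i + 1) = f^[N] (x i) := by
  obtain ⟨R₀, r, J, hU⟩ := exists_UR e hiso he hinj
  obtain ⟨K, hK, hang⟩ := h.angle he hinj
  obtain ⟨Λ, hΛ, hbd⟩ := hU.bdd
  have hC := h.C_pos
  obtain ⟨N, hN, ha, hb⟩ : ∃ N : ℕ, 1 ≤ N ∧ C * a ^ N ≤ 1 / 2 ∧ C * b ^ N ≤ 1 / 2 := by
    have t1 : Tendsto (fun n : ℕ => C * a ^ n) atTop (𝓝 0) := by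
      have := (tendsto_pow_atTop_nhds_zero_of_lt_one h.a_pos.le h.a_lt).const_mul C
      simpa using this
    have t2 : Tendsto (fun n : ℕ => C * b ^ n) atTop (𝓝 0) := by
      have := (tendsto_pow_atTop_nhds_zero_of_lt_one h.b_pos.le h.b_lt).const_mul C
      simpa using this
    obtain ⟨n, h1, h2, h3⟩ := ((eventually_ge_atTop 1).and
      (((tendsto_order.mp t1).2 (1 / 2) (by norm_num)).and
      ((tendsto_order.mp t2).2 (1 / 2) (by norm_num)))).exists
    exact ⟨n, h1, h2.le, h3.le⟩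
  have hsmg := iter_smooth g h.smooth N
  refine ⟨N, hN, fun ρ' hρ' => ?_⟩
  have hK0 : 0 < K := by linarith
  have hΛ0 : 0 < Λ := by linarith
  set κ := 5 * K * Λ with hκ
  have hκ0 : 0 < κ := by positivity
  obtain ⟨τ₁, hτ₁, hτR₁, hu1⟩ := hU.unif e he 1 one_pos
  obtain ⟨τ₂, hτ₂, hτR₂, hu2⟩ := hU.unif (e ∘ g^[N]) (he.comp hsmg) (1 / (4 * κ)) (by positivity)
  set R := min τ₁ τ₂ with hR
  have hR0 : 0 < R := lt_min hτ₁ hτ₂
  have hRτ1 : R ≤ τ₁ := min_le_left _ _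
  have hRτ2 : R ≤ τ₂ := min_le_right _ _
  set L := Λ + 1 with hL
  have hL0 : 0 < L := by linarith
  have hrq : ∀ q y, ‖y - e q‖ < R → dist (r q y) q ≤ L * ‖y - e q‖ := by
    intro q y hy
    have h1 := hu1 q y (hy.trans_le hRτ1)
    rw [one_mul] at h1
    have h2 := hbd q (y - e q)
    rw [hiso]
    have h3 := norm_add_le (e (r q y) - e q - fderiv ℝ (fun y => e (r q y)) (e q) (y - e q))
      (fderiv ℝ (fun y => e (r q y)) (e q) (y - e q))
    rw [sub_add_cancel] at h3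
    have h4 : L * ‖y - e q‖ = Λ * ‖y - e q‖ + ‖y - e q‖ := by rw [hL]; ring
    linarith
  set ρ₂ := R / L with hρ₂
  have hρ₂0 : 0 < ρ₂ := by positivity
  have hρ₂R : ρ₂ ≤ R := div_le_self hR0.le (by linarith)
  have huc : UniformContinuous (g^[N]) :=
    CompactSpace.uniformContinuous_of_continuous (g.continuous.iterate N)
  obtain ⟨ρa, hρa, huc1⟩ := Metric.uniformContinuous_iff.1 huc (ρ₂ / 2) (half_pos hρ₂0)
  set ρ₁ := min ρa ρ₂ with hρ₁
  have hρ₁0 : 0 < ρ₁ := lt_min hρa hρ₂0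
  set ρ := min (ρ₁ / L) ρ' with hρ
  have hρ0 : 0 < ρ := lt_min (by positivity) hρ'
  have hρρ₁ : ρ ≤ ρ₁ := (min_le_left _ _).trans (div_le_self hρ₁0.le (by linarith))
  refine ⟨ρ, hρ0, min_le_right _ _, min (ρ₂ / 2) (ρ / (16 * κ)),
    lt_min (half_pos hρ₂0) (by positivity), ?_⟩
  intro f Es' Eu' C' a' b' Ls' Lu' hf hclose m _ q hq
  have hδ1 : ∀ x, dist (f^[N] x) (g^[N] x) ≤ ρ₂ / 2 := fun x => (hclose x).trans (min_le_left _ _)
  obtain ⟨S, hSe, hSq, hSΦ, hSr, hSρ⟩ := exists_LS hiso he hinj hU hf hN q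
    (R := R) (ρ₂ := ρ₂) (ρ₁ := ρ₁) (ρ := ρ) (hRτ1.trans hτR₁) hρ0 hρρ₁ (min_le_right _ _) hρ₂R
    (by
      intro i y hy
      rw [mem_ball, dist_eq_norm] at hy
      refine (hrq _ _ (hy.trans_le (hρρ₁.trans ((min_le_right _ _).trans hρ₂R)))).trans_lt ?_
      have h1 : ρ ≤ ρ₁ / L := min_le_left _ _
      rw [le_div_iff₀ hL0] at h1
      nlinarith)
    (by
      intro i y hy
      rw [mem_ball, dist_eq_norm] at hy
      refine (hrq _ _ (hy.trans_le hρ₂R)).trans_lt ?_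
      have h1 : ρ₂ * L = R := by rw [hρ₂]; field_simp
      nlinarith)
    (by
      intro i x hx
      rw [hq]
      have h1 := hδ1 x
      have h2 := huc1 (hx.trans_le (min_le_left _ _))
      have h3 := dist_triangle (f^[N] x) (g^[N] x) (g^[N] (q i))
      linarith)
  have hfinal := S.unique_orbit (fun i => fderiv ℝ (fun y => e (g^[N] (r (q i) y))) (e (q i)))
    κ (min (ρ₂ / 2) (ρ / (16 * κ))) (1 / (4 * κ)) hκ0.le
    (by
      have : κ * (1 / (4 * κ)) = 1 / 4 := by field_simp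
      rw [this])
    (by positivity)
    (by
      rw [hSρ]
      have h1 : κ * min (ρ₂ / 2) (ρ / (16 * κ)) ≤ κ * (ρ / (16 * κ)) :=
        mul_le_mul_of_nonneg_left (min_le_right _ _) hκ0.le
      have h2 : κ * (ρ / (16 * κ)) = ρ / 16 := by field_simp
      linarith)
    (fun v => kappa he h hK hang ha hb hU hΛ hbd q hq v)
    (by
      intro i y hy
      rw [hSe, hSq] at hy ⊢
      rw [hSρ] at hy
      have hfh : S.fh i y = e (f^[N] (r (q i) y)) := by
        show S.e (S.Φ (S.r i y)) = _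
        rw [hSe, hSΦ, hSr]
      rw [hfh, hq]
      rw [mem_ball, dist_eq_norm] at hy
      have h1 := hu2 (q i) y (hy.trans_le ((hρρ₁.trans ((min_le_right _ _).trans hρ₂R)).trans
        hRτ2))
      have h2 := hclose (r (q i) y)
      rw [hiso] at h2
      have h3 : e (f^[N] (r (q i) y)) - e (g^[N] (q i)) -
          (fderiv ℝ (fun y => e (g^[N] (r (q i) y))) (e (q i))) (y - e (q i)) =
          (e (f^[N] (r (q i) y)) - e (g^[N] (r (q i) y))) +
          ((e ∘ g^[N]) (r (q i) y) - (e ∘ g^[N]) (q i) -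
          (fderiv ℝ (fun y => (e ∘ g^[N]) (r (q i) y)) (e (q i))) (y - e (q i))) := by
        simp only [Function.comp_apply]
        abel
      rw [h3]
      exact (norm_add_le _ _).trans (add_le_add h2 h1))
  rw [hSq, hSΦ, hSρ] at hfinal
  exact hfinal

end Pool.Agent.Run7.h491.AC
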