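import Pool.Agent.H721R2.Embed

/-!
# Local `C¹` retractions onto an embedded compact manifold
-/

set_option autoImplicit false
set_option linter.unusedSectionVars false

open scoped Manifold ContDiff Topology
open Set Filter Metric

namespace Pool.Agent.Run7.h491.AC

open Pool.Agent.H721R2

variable {E₀ : Type*} [NormedAddCommGroup E₀] [NormedSpace ℝ E₀] [FiniteDimensional ℝ E₀]
  {M : Type*} [MetricSpace M] [ChartedSpace E₀ M] [IsManifold 𝓘(ℝ, E₀) 1 M]
  {F : Type*} [NormedAddCommGroup F] [NormedSpace ℝ F] [FiniteDimensional ℝ F]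

/-- local coordinates on the ambient space, extending the chart at `c` -/
structure Rt (e : M → F) (c : M) (ρ : F → E₀) (t : ℝ) : Prop where
  pos : 0 < t
  smooth : ContDiffOn ℝ 1 ρ (ball (e c) t)
  tgt : ∀ y ∈ ball (e c) t, ρ y ∈ (extChartAt 𝓘(ℝ, E₀) c).target
  src : ∀ x, dist x c < t → x ∈ (extChartAt 𝓘(ℝ, E₀) c).source ∧
    ρ (e x) = extChartAt 𝓘(ℝ, E₀) c x

theorem exists_rt (e : M → F) (he : ContMDiff 𝓘(ℝ, E₀) 𝓘(ℝ, F) 1 e)
    (hinj : ∀ x, Function.Injective (dm E₀ e x)) (x₀ : M) :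
    ∃ (ρ : F → E₀) (t : ℝ), Rt e x₀ ρ t := by
  have : CompleteSpace E₀ := FiniteDimensional.complete ℝ E₀
  set φ := extChartAt 𝓘(ℝ, E₀) x₀ with hφ
  set p₀ := φ x₀ with hp₀
  set L := fderiv ℝ (hatMap e x₀) p₀ with hL
  have hx₀ : x₀ ∈ φ.source := mem_extChartAt_source x₀
  have hp₀t : p₀ ∈ φ.target := mem_extChartAt_target x₀
  have hLinj : Function.Injective L := by
    obtain ⟨A, hA⟩ := isInvertible_mfderiv_extChartAt (I := 𝓘(ℝ, E₀)) hx₀
    intro a b hab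
    have h1 : ∀ w : E₀, dm E₀ e x₀ (A.symm w) = L w := by
      intro w
      have h2 := hatMap_mfderiv e he x₀ x₀ hx₀ (A.symm w)
      rw [h2, ← hφ]
      have h3 : dm E₀ φ x₀ (A.symm w) = w := by
        show mfderiv 𝓘(ℝ, E₀) 𝓘(ℝ, E₀) φ x₀ (A.symm w) = w
        rw [← hA]; exact A.apply_symm_apply w
      rw [h3]
    have h4 : A.symm a = A.symm b := by
      apply hinj x₀
      exact (h1 a).trans (hab.trans (h1 b).symm)
    exact A.symm.injective h4
  obtain ⟨J', hJ'⟩ := LinearMap.exists_leftInverse_of_injective (L : E₀ →ₗ[ℝ] F)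
    (LinearMap.ker_eq_bot.mpr hLinj)
  let J : F →L[ℝ] E₀ := J'.toContinuousLinearMap
  have hJ : ∀ v, J (L v) = v := fun v => LinearMap.congr_fun hJ' v
  let κ : E₀ → E₀ := fun p => J (hatMap e x₀ p)
  have hc := hatMap_contDiffAt e he x₀ p₀ hp₀t
  have hκ : ContDiffAt ℝ 1 κ p₀ := J.contDiff.contDiffAt.comp p₀ hc
  have hκ' : HasFDerivAt κ ((ContinuousLinearEquiv.refl ℝ E₀ : E₀ ≃L[ℝ] E₀) : E₀ →L[ℝ] E₀) p₀ := by
    have h1 := J.hasFDerivAt.comp p₀ ((hc.differentiableAt (by norm_num)).hasFDerivAt)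
    have h2 : J.comp (fderiv ℝ (hatMap e x₀) p₀) =
        ((ContinuousLinearEquiv.refl ℝ E₀ : E₀ ≃L[ℝ] E₀) : E₀ →L[ℝ] E₀) := by
      ext v
      exact hJ v
    rw [← h2]
    exact h1
  have hst := hκ.hasStrictFDerivAt' hκ' (by norm_num)
  let s : E₀ → E₀ := hκ.localInverse hκ' (by norm_num)
  have hs1 : ContDiffAt ℝ 1 s (κ p₀) := hκ.to_localInverse hκ' (by norm_num)
  have hs2 : ∀ᶠ p in 𝓝 p₀, s (κ p) = p := hst.eventually_left_inverse
  have hex : hatMap e x₀ p₀ = e x₀ := by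
    show e (φ.symm (φ x₀)) = e x₀
    rw [φ.left_inv hx₀]
  have hρ1 : ContDiffAt ℝ 1 (fun y => s (J y)) (e x₀) := by
    have h1 : ContDiffAt ℝ 1 s (J (e x₀)) := by
      rw [← hex]
      exact hs1
    exact h1.comp (e x₀) J.contDiff.contDiffAt
  have hρ0 : s (J (e x₀)) = p₀ := by
    rw [← hex]
    exact hs2.self_of_nhds
  have hev1 : ∀ᶠ y in 𝓝 (e x₀), ContDiffAt ℝ 1 (fun y => s (J y)) y :=
    hρ1.eventually (by norm_num)
  have hev2 : ∀ᶠ y in 𝓝 (e x₀), s (J y) ∈ φ.target := by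
    apply hρ1.continuousAt.eventually_mem
    show φ.target ∈ 𝓝 (s (J (e x₀)))
    rw [hρ0]
    exact extChartAt_target_mem_nhds x₀
  have hev3 : ∀ᶠ x in 𝓝 x₀, x ∈ φ.source ∧ s (J (e x)) = φ x := by
    have h1 : ContinuousAt φ x₀ := continuousAt_extChartAt x₀
    filter_upwards [(isOpen_extChartAt_source (I := 𝓘(ℝ, E₀)) x₀).mem_nhds hx₀,
      h1.eventually hs2] with x hx hx2
    refine ⟨hx, ?_⟩
    have h2 : κ (φ x) = J (e x) := by
      show J (e (φ.symm (φ x))) = _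
      rw [φ.left_inv hx]
    rw [← h2]
    exact hx2
  obtain ⟨t1, ht1, hb1⟩ := Metric.eventually_nhds_iff.1 (hev1.and hev2)
  obtain ⟨t2, ht2, hb2⟩ := Metric.eventually_nhds_iff.1 hev3
  refine ⟨fun y => s (J y), min t1 t2, lt_min ht1 ht2, ?_, ?_, ?_⟩
  · intro y hy
    exact (hb1 (lt_of_lt_of_le hy (min_le_left _ _))).1.contDiffWithinAt
  · intro y hy
    exact (hb1 (lt_of_lt_of_le hy (min_le_left _ _))).2
  · intro x hx
    exact hb2 (lt_of_lt_of_le hx (min_le_right _ _))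

namespace Rt

variable {e : M → F} {c : M} {ρ : F → E₀} {t : ℝ}

/-- the local retraction -/
noncomputable def r (c : M) (ρ : F → E₀) (y : F) : M := (extChartAt 𝓘(ℝ, E₀) c).symm (ρ y)

theorem r_id (h : Rt e c ρ t) (x : M) (hx : dist x c < t) : r c ρ (e x) = x := by
  obtain ⟨h1, h2⟩ := h.src x hx
  rw [r, h2, (extChartAt 𝓘(ℝ, E₀) c).left_inv h1]

theorem r_cont (h : Rt e c ρ t) : ContinuousOn (r c ρ) (ball (e c) t) :=
  (continuousOn_extChartAt_symm c).comp h.smooth.continuousOn h.tgt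

theorem comp_smooth (h : Rt e c ρ t) {F' : Type*} [NormedAddCommGroup F'] [NormedSpace ℝ F']
    (k : M → F') (hk : ContMDiff 𝓘(ℝ, E₀) 𝓘(ℝ, F') 1 k) :
    ContDiffOn ℝ 1 (fun y => k (r c ρ y)) (ball (e c) t) := by
  intro y hy
  have h1 := hatMap_contDiffAt k hk c (ρ y) (h.tgt y hy)
  have h2 : ContDiffAt ℝ 1 ρ y := h.smooth.contDiffAt (isOpen_ball.mem_nhds hy)
  exact (h1.comp y h2).contDiffWithinAt

/-- the derivative of the retraction -/
theorem exists_J (h : Rt e c ρ t) (hiso : ∀ x y, dist x y = ‖e x - e y‖)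
    (he : ContMDiff 𝓘(ℝ, E₀) 𝓘(ℝ, F) 1 e) (x : M) (hx : dist x c < t) :
    ∃ J : F →L[ℝ] E₀, (∀ v, J (dm E₀ e x v) = v) ∧
      ∀ (k : M → F), ContMDiff 𝓘(ℝ, E₀) 𝓘(ℝ, F) 1 k →
        ∀ w, fderiv ℝ (fun y => k (r c ρ y)) (e x) w = dm E₀ k x (J w) := by
  obtain ⟨hxs, hρx⟩ := h.src x hx
  set φ := extChartAt 𝓘(ℝ, E₀) c with hφ
  have hxb : e x ∈ ball (e c) t := by rwa [Metric.mem_ball, dist_eq_norm, ← hiso]
  obtain ⟨A0, hA⟩ := isInvertible_mfderiv_extChartAt (I := 𝓘(ℝ, E₀)) hxs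
  let A : E₀ ≃L[ℝ] E₀ := A0
  have hAv : ∀ v : E₀, dm E₀ φ x v = A v := fun v => by
    show mfderiv 𝓘(ℝ, E₀) 𝓘(ℝ, E₀) φ x v = A0 v
    rw [← hA]; rfl
  have hρd : DifferentiableAt ℝ ρ (e x) :=
    (h.smooth.contDiffAt (isOpen_ball.mem_nhds hxb)).differentiableAt (by norm_num)
  have hxt : φ x ∈ φ.target := φ.map_source hxs
  let J : F →L[ℝ] E₀ := (A.symm : E₀ →L[ℝ] E₀).comp (fderiv ℝ ρ (e x))
  refine ⟨J, fun v => ?_, fun k hk w => ?_⟩
  · -- the inverse property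
    have hid : (fun p => ρ (hatMap e c p)) =ᶠ[𝓝 (φ x)] id := by
      have h1 : ContinuousAt φ.symm (φ x) := continuousAt_extChartAt_symm'' hxt
      have h2 : ∀ᶠ p in 𝓝 (φ x), φ.symm p ∈ ball c t := by
        apply h1.eventually_mem
        rw [φ.left_inv hxs]
        exact isOpen_ball.mem_nhds hx
      have h3 : φ.target ∈ 𝓝 (φ x) := (isOpen_extChartAt_target c).mem_nhds hxt
      filter_upwards [h2, h3] with p hp hpt
      have h4 := (h.src (φ.symm p) hp).2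
      show ρ (e (φ.symm p)) = p
      rw [h4, ← hφ, φ.right_inv hpt]
    have hek : hatMap e c (φ x) = e x := by
      show e (φ.symm (φ x)) = e x
      rw [φ.left_inv hxs]
    have h5 : HasFDerivAt (fun p => ρ (hatMap e c p))
        ((fderiv ℝ ρ (e x)).comp (fderiv ℝ (hatMap e c) (φ x))) (φ x) := by
      have h6 : HasFDerivAt ρ (fderiv ℝ ρ (e x)) (hatMap e c (φ x)) := by
        rw [hek]; exact hρd.hasFDerivAt
      exact h6.comp (φ x) ((hatMap_contDiffAt e he c _ hxt).differentiableAt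
        (by norm_num)).hasFDerivAt
    have h7 : HasFDerivAt (fun p => ρ (hatMap e c p)) (ContinuousLinearMap.id ℝ E₀) (φ x) :=
      (hasFDerivAt_id _).congr_of_eventuallyEq hid
    have h8 := h5.unique h7
    have h9 := hatMap_mfderiv e he c x hxs v
    show A.symm (fderiv ℝ ρ (e x) (dm E₀ e x v)) = v
    rw [h9, ← hφ, hAv]
    have h10 := congrArg (fun T : E₀ →L[ℝ] E₀ => T (A v)) h8
    simp only [ContinuousLinearMap.comp_apply, ContinuousLinearMap.id_apply] at h10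
    rw [h10, A.symm_apply_apply]
  · have h5 : HasFDerivAt (fun y => hatMap k c (ρ y))
        ((fderiv ℝ (hatMap k c) (φ x)).comp (fderiv ℝ ρ (e x))) (e x) := by
      have h6 : HasFDerivAt (hatMap k c) (fderiv ℝ (hatMap k c) (φ x)) (ρ (e x)) := by
        rw [hρx]
        exact ((hatMap_contDiffAt k hk c _ hxt).differentiableAt (by norm_num)).hasFDerivAt
      exact h6.comp (e x) hρd.hasFDerivAt
    have h7 : fderiv ℝ (fun y => k (r c ρ y)) (e x) =
        (fderiv ℝ (hatMap k c) (φ x)).comp (fderiv ℝ ρ (e x)) := h5.fderiv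
    have h9 := hatMap_mfderiv k hk c x hxs (J w)
    rw [h7, h9, ← hφ, hAv]
    show _ = fderiv ℝ (hatMap k c) (φ x) (A (A.symm (fderiv ℝ ρ (e x) w)))
    rw [A.apply_symm_apply]
    rfl

end Rt

/-- uniform differentiability on compact sets -/
theorem unif_diff {F' : Type*} [NormedAddCommGroup F'] [NormedSpace ℝ F'] (k : F → F')
    (U K : Set F) (hU : IsOpen U) (hk : ContDiffOn ℝ 1 k U) (hK : IsCompact K) (hKU : K ⊆ U)
    {η : ℝ} (hη : 0 < η) : ∃ τ > 0, ∀ x ∈ K, ∀ y, ‖y - x‖ < τ →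
      y ∈ U ∧ ‖k y - k x - fderiv ℝ k x (y - x)‖ ≤ η * ‖y - x‖ := by
  have : ProperSpace F := FiniteDimensional.proper ℝ F
  obtain ⟨τ₁, hτ₁, h1⟩ := hK.exists_cthickening_subset_open hU hKU
  have hK' : IsCompact (cthickening τ₁ K) := hK.cthickening
  have hc : ContinuousOn (fderiv ℝ k) (cthickening τ₁ K) :=
    (hk.continuousOn_fderiv_of_isOpen hU (by norm_num)).mono h1
  have huc := hK'.uniformContinuousOn_of_continuous hc
  obtain ⟨τ₂, hτ₂, h2⟩ := Metric.uniformContinuousOn_iff.1 huc η hη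
  refine ⟨min τ₁ τ₂, lt_min hτ₁ hτ₂, fun x hx y hy => ?_⟩
  have hball : ball x (min τ₁ τ₂) ⊆ cthickening τ₁ K := fun z hz =>
    mem_cthickening_of_dist_le z x τ₁ K hx ((mem_ball.1 hz).le.trans (min_le_left _ _))
  have hyb : y ∈ ball x (min τ₁ τ₂) := by rwa [Metric.mem_ball, dist_eq_norm]
  have hxb : x ∈ ball x (min τ₁ τ₂) := mem_ball_self (lt_min hτ₁ hτ₂)
  refine ⟨h1 (hball hyb), ?_⟩
  refine (convex_ball x (min τ₁ τ₂)).norm_image_sub_le_of_norm_hasFDerivWithin_le'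
    (f := k) (f' := fderiv ℝ k) (φ := fderiv ℝ k x) (C := η) ?_ ?_ hxb hyb
  · intro z hz
    have h3 : z ∈ U := h1 (hball hz)
    exact ((hk.contDiffAt (hU.mem_nhds h3)).differentiableAt
      (by norm_num)).hasFDerivAt.hasFDerivWithinAt
  · intro z hz
    have h3 := h2 z (hball hz) x (hball hxb) (lt_of_lt_of_le hz (min_le_right _ _))
    rw [dist_eq_norm] at h3
    exact h3.le

end Pool.Agent.Run7.h491.AC
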