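import Pool.Agent.Run7.h491.AC.Retr

/-!
# Uniform families of local retractions
-/

set_option autoImplicit false
set_option linter.unusedSectionVars false

open scoped Manifold ContDiff Topology
open Set Filter Metric

namespace Pool.Agent.Run7.h491.AC

open Pool.Agent.H721R2

variable {E₀ : Type*} [NormedAddCommGroup E₀] [NormedSpace ℝ E₀] [FiniteDimensional ℝ E₀]
  {M : Type*} [MetricSpace M] [ChartedSpace E₀ M] [IsManifold 𝓘(ℝ, E₀) 1 M]
  {F : Type*} [NormedAddCommGroup F] [NormedSpace ℝ F] [FiniteDimensional ℝ F]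

/-- A uniform family of local `C¹` retractions onto `e(M)`, with their derivatives. -/
structure UR (e : M → F) (R : ℝ) (r : M → F → M) (J : M → M → F →L[ℝ] E₀) : Prop where
  R_pos : 0 < R
  r_id : ∀ q x, dist x q < R → r q (e x) = x
  r_cont : ∀ q, ContinuousOn (r q) (ball (e q) R)
  smooth : ∀ q, ∀ k : M → F, ContMDiff 𝓘(ℝ, E₀) 𝓘(ℝ, F) 1 k →
    ContDiffOn ℝ 1 (fun y => k (r q y)) (ball (e q) R)
  J_id : ∀ q x, dist x q < R → ∀ v, J q x (dm E₀ e x v) = v
  J_fd : ∀ q x, dist x q < R → ∀ k : M → F, ContMDiff 𝓘(ℝ, E₀) 𝓘(ℝ, F) 1 k →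
    ∀ w, fderiv ℝ (fun y => k (r q y)) (e x) w = dm E₀ k x (J q x w)
  unif : ∀ k : M → F, ContMDiff 𝓘(ℝ, E₀) 𝓘(ℝ, F) 1 k → ∀ η > 0, ∃ τ > 0, τ ≤ R ∧
    ∀ q, ∀ y, ‖y - e q‖ < τ →
      ‖k (r q y) - k q - fderiv ℝ (fun y => k (r q y)) (e q) (y - e q)‖ ≤ η * ‖y - e q‖
  bdd : ∃ Λ ≥ 1, ∀ q w, ‖fderiv ℝ (fun y => e (r q y)) (e q) w‖ ≤ Λ * ‖w‖

theorem fin_min {ι : Type*} (t : Finset ι) (p : ι → ℝ → Prop)
    (hmono : ∀ c a b, 0 < b → b ≤ a → p c a → p c b) (h : ∀ c ∈ t, ∃ a > 0, p c a) :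
    ∃ a > 0, ∀ c ∈ t, p c a := by
  classical
  induction t using Finset.induction_on with
  | empty => exact ⟨1, one_pos, fun c hc => absurd hc (Finset.notMem_empty c)⟩
  | insert d s _ ih =>
    obtain ⟨a, ha, h1⟩ := ih fun c hc => h c (Finset.mem_insert_of_mem hc)
    obtain ⟨b, hb, h2⟩ := h d (Finset.mem_insert_self _ _)
    refine ⟨min a b, lt_min ha hb, fun c hc => ?_⟩
    rcases Finset.mem_insert.1 hc with rfl | hc
    · exact hmono _ _ _ (lt_min ha hb) (min_le_right _ _) h2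
    · exact hmono _ _ _ (lt_min ha hb) (min_le_left _ _) (h1 c hc)

theorem exists_UR [CompactSpace M] (e : M → F) (hiso : ∀ x y, dist x y = ‖e x - e y‖)
    (he : ContMDiff 𝓘(ℝ, E₀) 𝓘(ℝ, F) 1 e)
    (hinj : ∀ x, Function.Injective (dm E₀ e x)) :
    ∃ (R : ℝ) (r : M → F → M) (J : M → M → F →L[ℝ] E₀), UR e R r J := by
  classical
  have hec : Continuous e := he.continuous
  choose ρ t hrt using exists_rt e he hinj
  obtain ⟨T, -, hT⟩ := (isCompact_univ (X := M)).elim_nhds_subcover (fun c => ball c (t c / 2))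
    (fun c _ => ball_mem_nhds c (half_pos (hrt c).pos))
  have hsel : ∀ q : M, ∃ c ∈ T, dist q c < t c / 2 := fun q => by
    have := hT (mem_univ q)
    simp only [mem_iUnion] at this
    obtain ⟨c, hc, hq⟩ := this
    exact ⟨c, hc, hq⟩
  choose c hcT hcd using hsel
  obtain ⟨R, hR, hRT⟩ := fin_min T (fun c a => a ≤ t c / 2) (fun c a b _ h1 h2 => h1.trans h2)
    (fun c _ => ⟨t c / 2, half_pos (hrt c).pos, le_rfl⟩)
  have hlt : ∀ q x, dist x q < R → dist x (c q) < t (c q) := fun q x hx => by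
    have h1 := dist_triangle x q (c q)
    have h2 := hRT _ (hcT q)
    have h3 := hcd q
    linarith
  have hball : ∀ q, ball (e q) R ⊆ ball (e (c q)) (t (c q)) := by
    intro q y hy
    have h1 := dist_triangle y (e q) (e (c q))
    have h2 := hRT _ (hcT q)
    have h3 := hcd q
    rw [hiso, ← dist_eq_norm] at h3
    rw [mem_ball] at hy ⊢
    linarith
  have hJ : ∀ q x, ∃ J : F →L[ℝ] E₀, dist x q < R → (∀ v, J (dm E₀ e x v) = v) ∧
      ∀ (k : M → F), ContMDiff 𝓘(ℝ, E₀) 𝓘(ℝ, F) 1 k →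
        ∀ w, fderiv ℝ (fun y => k (Rt.r (c q) (ρ (c q)) y)) (e x) w = dm E₀ k x (J w) := by
    intro q x
    by_cases hx : dist x q < R
    · obtain ⟨J, hJ⟩ := (hrt (c q)).exists_J hiso he x (hlt q x hx)
      exact ⟨J, fun _ => hJ⟩
    · exact ⟨0, fun h => absurd h hx⟩
  choose J hJ using hJ
  have hK : ∀ c, IsCompact (e '' closedBall c (t c / 2)) := fun c =>
    (isClosed_closedBall.isCompact).image hec
  have hKU : ∀ c, e '' closedBall c (t c / 2) ⊆ ball (e c) (t c) := by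
    rintro c _ ⟨x, hx, rfl⟩
    rw [mem_ball, dist_eq_norm, ← hiso]
    have := (hrt c).pos
    exact lt_of_le_of_lt hx (by linarith)
  have hid : ∀ q x, dist x q < R → Rt.r (c q) (ρ (c q)) (e x) = x := fun q x hx =>
    (hrt (c q)).r_id x (hlt q x hx)
  refine ⟨R, fun q => Rt.r (c q) (ρ (c q)), J, {
    R_pos := hR
    r_id := hid
    r_cont := fun q => (hrt (c q)).r_cont.mono (hball q)
    smooth := fun q k hk => ((hrt (c q)).comp_smooth k hk).mono (hball q)
    J_id := fun q x hx => (hJ q x hx).1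
    J_fd := fun q x hx => (hJ q x hx).2
    unif := ?_
    bdd := ?_ }⟩
  · intro k hk η hη
    obtain ⟨τ, hτ, h1⟩ := fin_min T (fun c τ => ∀ x ∈ e '' closedBall c (t c / 2), ∀ y,
      ‖y - x‖ < τ → y ∈ ball (e c) (t c) ∧
        ‖k (Rt.r c (ρ c) y) - k (Rt.r c (ρ c) x) -
          fderiv ℝ (fun y => k (Rt.r c (ρ c) y)) x (y - x)‖ ≤ η * ‖y - x‖)
      (fun c a b _ hab h x hx y hy => h x hx y (hy.trans_le hab))
      (fun c _ => unif_diff _ _ _ isOpen_ball ((hrt c).comp_smooth k hk) (hK c) (hKU c) hη)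
    refine ⟨min τ R, lt_min hτ hR, min_le_right _ _, fun q y hy => ?_⟩
    have h2 := (h1 (c q) (hcT q) (e q) ⟨q, (hcd q).le, rfl⟩ y
      (hy.trans_le (min_le_left _ _))).2
    have h3 := hid q q (by rw [dist_self]; exact hR)
    rw [h3] at h2
    exact h2
  · have h0 : ∀ c ∈ T, ∃ a > 0, ∀ x ∈ e '' closedBall c (t c / 2),
        a * ‖fderiv ℝ (fun y => e (Rt.r c (ρ c) y)) x‖ ≤ 1 := by
      intro c _
      have hc : ContinuousOn (fderiv ℝ (fun y => e (Rt.r c (ρ c) y)))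
          (e '' closedBall c (t c / 2)) :=
        (((hrt c).comp_smooth e he).continuousOn_fderiv_of_isOpen isOpen_ball
          (by norm_num)).mono (hKU c)
      obtain ⟨B, hB⟩ := (hK c).exists_bound_of_continuousOn hc
      refine ⟨1 / (|B| + 1), by positivity, fun x hx => ?_⟩
      have h1 := hB x hx
      have h2 := le_abs_self B
      rw [div_mul_eq_mul_div, one_mul, div_le_one (by positivity)]
      linarith
    obtain ⟨a, ha, h1⟩ := fin_min T (fun c a => ∀ x ∈ e '' closedBall c (t c / 2),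
        a * ‖fderiv ℝ (fun y => e (Rt.r c (ρ c) y)) x‖ ≤ 1)
      (fun c a b _ hab h x hx =>
        (mul_le_mul_of_nonneg_right hab (norm_nonneg _)).trans (h x hx)) h0
    refine ⟨max 1 (1 / a), le_max_left _ _, fun q w => ?_⟩
    have h2 := h1 (c q) (hcT q) (e q) ⟨q, (hcd q).le, rfl⟩
    have h3 : ‖fderiv ℝ (fun y => e (Rt.r (c q) (ρ (c q)) y)) (e q)‖ ≤ 1 / a := by
      rw [le_div_iff₀ ha]
      linarith
    refine (ContinuousLinearMap.le_opNorm _ _).trans ?_
    exact mul_le_mul_of_nonneg_right (h3.trans (le_max_right _ _)) (norm_nonneg _)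

end Pool.Agent.Run7.h491.AC
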